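import Pool.Agent.H539.VG.TB2

/-!
Exploring agent in a visibility structure: indistinguishable positions have the same words modulo
a divisor of `n`; reconstruction of the structure.
-/

set_option autoImplicit false

namespace H539

open Classical

variable {n : ℕ}

/-! ### properties of `Bisim` -/

lemma Bisim.symm {G G' : VG n} {s s' : ℤ} (h : Bisim G G' s s') : Bisim G' G s' s :=
  fun l => (h l).symm

lemma Bisim.trans {G G' G'' : VG n} {s s' s'' : ℤ} (h : Bisim G G' s s')
    (h' : Bisim G' G'' s' s'') : Bisim G G'' s s'' :=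
  fun l => (h l).trans (h' l)

lemma Bisim.refl (G : VG n) (s : ℤ) : Bisim G G s s := fun _ => rfl

lemma Bisim.go {G G' : VG n} {s s' : ℤ} (h : Bisim G G' s s') (i : ℕ) :
    Bisim G G' (go G.adj n s i) (go G'.adj n s' i) := fun l => h (i :: l)

lemma Bisim.dg {G G' : VG n} {s s' : ℤ} (h : Bisim G G' s s') :
    dg G.adj n s = dg G'.adj n s' := h []

lemma bisim_k (G G' : VG n) (s s' k k' : ℤ) :
    Bisim G G' (s + k * n) (s' + k' * n) ↔ Bisim G G' s s' := by
  unfold Bisim
  simp only [fold_k, dg_k]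

lemma go_zero (hn : 3 ≤ n) (G : VG n) (v : ℤ) : go G.adj n v 0 = v + 1 := by
  unfold go nbrs
  obtain ⟨m, hm⟩ : ∃ m, n - 1 = m + 1 := ⟨n - 2, by omega⟩
  rw [hm, List.range_succ_eq_map, List.map_cons, List.filter_cons]
  have h : G.adj v (v + 1 + ((0 : ℕ) : ℤ)) := by simpa using G.succ v
  rw [if_pos (by simpa using G.succ v)]
  simp

lemma Bisim.succ (hn : 3 ≤ n) {G G' : VG n} {s s' : ℤ} (h : Bisim G G' s s') :
    Bisim G G' (s + 1) (s' + 1) := by
  have := h.go 0
  rwa [go_zero hn, go_zero hn] at this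

lemma Bisim.addNat (hn : 3 ≤ n) {G G' : VG n} {s s' : ℤ} (h : Bisim G G' s s') (i : ℕ) :
    Bisim G G' (s + i) (s' + i) := by
  induction i with
  | zero => simpa using h
  | succ i ih =>
    have := ih.succ hn
    rwa [add_assoc, add_assoc] at this

lemma Bisim.add (hn : 3 ≤ n) {G G' : VG n} {s s' : ℤ} (h : Bisim G G' s s') (i : ℤ) :
    Bisim G G' (s + i) (s' + i) := by
  have hz : (1 : ℤ) ≤ n := by exact_mod_cast (by omega : 1 ≤ n)
  have h0 : 0 ≤ i + |i| * n := by
    have h1 : -|i| ≤ i := neg_abs_le i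
    have h2 : 0 ≤ |i| := abs_nonneg i
    nlinarith
  have h1 := h.addNat hn (i + |i| * n).toNat
  rw [Int.toNat_of_nonneg h0, ← add_assoc, ← add_assoc, bisim_k] at h1
  exact h1

/-- the shift of a structure -/
def VG.shift (G : VG n) (s : ℤ) : VG n where
  adj a b := G.adj (s + a) (s + b)
  symm a b h := G.symm _ _ h
  per a b := by
    rw [← add_assoc]
    exact G.per _ _
  irr a := G.irr _
  succ a := by
    rw [← add_assoc]
    exact G.succ _
  c1 a b h h1 h2 := by
    obtain ⟨u, hu1, hu2, hu3, hu4⟩ := G.c1 (s + a) (s + b) h (by omega) (by omega)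
    exact ⟨u - s, by omega, by omega, by simpa using hu3, by simpa using hu4⟩
  ca v x y h1 h2 h3 h4 h5 h6 := by
    apply G.caZ (s + v) (s + x) (s + y) (by omega) (by omega) (by omega) h4 h5
    intro t ht1 ht2
    obtain ⟨T, hT⟩ := Int.eq_ofNat_of_zero_le (a := t - s) (by omega)
    have := h6 T (by omega) (by omega)
    rw [← hT] at this
    simpa using this
  ps v x y h1 h2 h3 h4 h5 h6 := by
    obtain ⟨w, hw1, hw2, hw3, hw4⟩ := G.psZ (s + v) (s + x) (s + y) (by omega) (by omega)
      (by omega) h4 h5 (by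
        intro t ht1 ht2
        obtain ⟨T, hT⟩ := Int.eq_ofNat_of_zero_le (a := t - s) (by omega)
        have := h6 T (by omega) (by omega)
        rw [← hT] at this
        simpa using this)
    obtain ⟨W, hW⟩ := Int.eq_ofNat_of_zero_le (a := w - s) (by omega)
    exact ⟨W, by omega, by omega,
      fun p q hp1 hp2 hq1 hq2 => hw3 _ _ (by omega) (by omega) (by omega) (by omega),
      fun p q hp1 hp2 hq1 hq2 => hw4 _ _ (by omega) (by omega) (by omega) (by omega)⟩

lemma wd_shift (G : VG n) (k : ℕ) (s i : ℤ) :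
    wd (fun a b => G.adj (s + a) (s + b)) n k i =
      (nbrs G.adj n (s + i)).map (fun t => (t - s) % (k : ℤ)) := by
  unfold wd
  have h := nbrs_shift (n := n) (fun a b => G.adj (s + a) (s + b)) G.adj s i
    (fun t => by rw [add_comm i s, add_comm t s])
  rw [add_comm s i, h, List.map_map]
  congr 1
  funext t
  simp

/-- the shifts under which the positions `s` and `s'` remain indistinguishable -/
def shf (hn : 3 ≤ n) (G G' : VG n) (s s' : ℤ) (h : Bisim G G' s s') : AddSubgroup ℤ where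
  carrier := {d | Bisim G G' (s + d) s'}
  zero_mem' := by
    show Bisim G G' (s + 0) s'
    rwa [add_zero]
  add_mem' := by
    intro a b ha hb
    show Bisim G G' (s + (a + b)) s'
    have h1 : Bisim G G (s + a) s := Bisim.trans ha h.symm
    have h2 := h1.add hn b
    rw [← add_assoc]
    exact Bisim.trans h2 hb
  neg_mem' := by
    intro a ha
    show Bisim G G' (s + -a) s'
    have h1 : Bisim G G s (s + a) := Bisim.trans h ha.symm
    have h2 := h1.add hn (-a)
    rw [add_assoc, add_neg_cancel, add_zero] at h2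
    exact Bisim.trans h2 h

lemma mem_shf (hn : 3 ≤ n) (G G' : VG n) (s s' : ℤ) (h : Bisim G G' s s') (d : ℤ) :
    d ∈ shf hn G G' s s' h ↔ Bisim G G' (s + d) s' := Iff.rfl

theorem bisim_words {n : ℕ} (hn : 3 ≤ n) (G G' : VG n) (s s' : ℤ) (h : Bisim G G' s s') :
    ∃ k : ℕ, 0 < k ∧ k ∣ n ∧ ∀ i j : ℤ, i % k = j % k →
      wd (fun a b => G.adj (s + a) (s + b)) n k i =
        wd (fun a b => G'.adj (s' + a) (s' + b)) n k j := by
  obtain ⟨a, ha⟩ := Int.subgroup_cyclic (shf hn G G' s s' h)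
  have hmem : ∀ d : ℤ, Bisim G G' (s + d) s' ↔ ((a.natAbs : ℕ) : ℤ) ∣ d := by
    intro d
    rw [← mem_shf hn G G' s s' h, ha, AddSubgroup.mem_closure_singleton]
    rw [Int.natAbs_dvd]
    constructor
    · rintro ⟨m, hm⟩
      exact ⟨m, by rw [← hm, smul_eq_mul, mul_comm]⟩
    · rintro ⟨m, hm⟩
      exact ⟨m, by rw [hm, smul_eq_mul, mul_comm]⟩
  have hR : ∀ i j : ℤ, Bisim G G' (s + i) (s' + j) ↔ ((a.natAbs : ℕ) : ℤ) ∣ i - j := by
    intro i j
    rw [← hmem]
    constructor
    · intro h1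
      have h2 := h1.add hn (-j)
      rw [add_assoc s' j, add_neg_cancel, add_zero, add_assoc, ← sub_eq_add_neg] at h2
      exact h2
    · intro h1
      have h2 := h1.add hn j
      rw [add_assoc, sub_add_cancel] at h2
      exact h2
  have hn0 : ((a.natAbs : ℕ) : ℤ) ∣ (n : ℤ) := by
    rw [← hmem]
    have := (bisim_k G G' s s' 1 0).2 h
    rw [one_mul, zero_mul, add_zero] at this
    exact this
  have hn1 : a.natAbs ∣ n := by exact_mod_cast hn0
  refine ⟨a.natAbs, Nat.pos_of_dvd_of_pos hn1 (by omega), hn1, fun i j hij => ?_⟩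
  have hb : Bisim G G' (s + i) (s' + j) :=
    (hR i j).2 (Int.dvd_of_emod_eq_zero (Int.emod_eq_emod_iff_emod_sub_eq_zero.1 hij))
  rw [wd_shift, wd_shift]
  have hlen : (nbrs G.adj n (s + i)).length = (nbrs G'.adj n (s' + j)).length := hb.dg
  apply List.ext_getElem
  · rw [List.length_map, List.length_map, hlen]
  · intro l h1 h2
    rw [List.length_map] at h1 h2
    rw [List.getElem_map, List.getElem_map]
    have h3 := hb.go l
    unfold go at h3
    rw [List.getD_eq_getElem _ _ h1, List.getD_eq_getElem _ _ h2] at h3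
    have h4 := (hR ((nbrs G.adj n (s + i))[l] - s) ((nbrs G'.adj n (s' + j))[l] - s')).1
      (by simpa using h3)
    exact Int.emod_eq_emod_iff_emod_sub_eq_zero.2 (Int.emod_eq_zero_of_dvd h4)

lemma mem_nbrs (G : VG n) (v t : ℤ) :
    t ∈ nbrs G.adj n v ↔ G.adj v t ∧ v < t ∧ t < v + n := by
  unfold nbrs
  rw [List.mem_filter, List.mem_map]
  constructor
  · rintro ⟨⟨i, hi, rfl⟩, h⟩
    rw [List.mem_range] at hi
    refine ⟨of_decide_eq_true h, by omega, by omega⟩
  · rintro ⟨h, h1, h2⟩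
    refine ⟨⟨(t - v - 1).toNat, ?_, ?_⟩, decide_eq_true h⟩
    · rw [List.mem_range]
      omega
    · rw [Int.toNat_of_nonneg (by omega)]
      ring

lemma adj_iff_wd (hn : 3 ≤ n) (G : VG n) (a b : ℤ) :
    G.adj a b ↔ b % n ∈ wd G.adj n n a := by
  have hz : (0 : ℤ) < n := by exact_mod_cast (by omega : 0 < n)
  unfold wd
  rw [List.mem_map]
  constructor
  · intro h
    have e1 : (a + (b - a) % n) % n = b % n := by
      rw [Int.add_emod, Int.emod_emod_of_dvd _ (dvd_refl (n : ℤ)), ← Int.add_emod]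
      congr 1
      ring
    have h0 : (b - a) % n ≠ 0 := by
      intro h1
      rw [h1, add_zero] at e1
      exact G.irr a ((G.congr_mod rfl e1).2 h)
    have h1 := Int.emod_nonneg (b - a) hz.ne'
    have h2 := Int.emod_lt_of_pos (b - a) hz
    refine ⟨a + (b - a) % n, (mem_nbrs G _ _).2 ⟨(G.congr_mod rfl e1).2 h, by omega, by omega⟩,
      e1⟩
  · rintro ⟨t, ht, htb⟩
    rw [mem_nbrs] at ht
    exact (G.congr_mod rfl htb).1 ht.1

theorem feasible_of_unique {n : ℕ} (hn : 3 ≤ n)
    (U : ∀ (k : ℕ), 0 < k → k ∣ n → k < n → ∀ G G' : VG n,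
      (∀ i j : ℤ, i % k = j % k → wd G.adj n k i = wd G'.adj n k j) →
      ∀ s t, G.adj s t ↔ G'.adj s t) :
    ∃ S : Strategy, ∀ (G : VG n) (s : ℤ), ∃ t : ℕ, ∀ (G' : VG n) (s' : ℤ),
      obs S G.adj n s t = obs S G'.adj n s' t →
      ∃ c : ℤ, ∀ i j, G.adj i j ↔ G'.adj (i + c) (j + c) := by
  obtain ⟨S, hS⟩ := exists_strategy hn
  refine ⟨S, fun G s => ?_⟩
  obtain ⟨t, ht⟩ := hS G s
  refine ⟨t, fun G' s' h => ?_⟩
  have hb := ht G' s' h
  set p := (run S G.adj n s t).1
  set p' := (run S G'.adj n s' t).1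
  obtain ⟨k, hk0, hkn, hw⟩ := bisim_words hn G G' p p' hb
  have key : ∀ a b : ℤ, G.adj (p + a) (p + b) ↔ G'.adj (p' + a) (p' + b) := by
    rcases lt_or_eq_of_le (Nat.le_of_dvd (by omega) hkn) with hlt | heq
    · exact U k hk0 hkn hlt (G.shift p) (G'.shift p') hw
    · intro a b
      have h1 := adj_iff_wd hn (G.shift p) a b
      have h2 := adj_iff_wd hn (G'.shift p') a b
      have h3 := hw a a rfl
      rw [heq] at h3
      change G.adj (p + a) (p + b) ↔ _ at h1
      change G'.adj (p' + a) (p' + b) ↔ _ at h2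
      rw [h1, h2]
      have h4 : wd (G.shift p).adj n n a = wd (G'.shift p').adj n n a := h3
      rw [h4]
  refine ⟨p' - p, fun i j => ?_⟩
  have := key (i - p) (j - p)
  rw [show p + (i - p) = i by ring, show p + (j - p) = j by ring,
    show p' + (i - p) = i + (p' - p) by ring, show p' + (j - p) = j + (p' - p) by ring] at this
  exact this

end H539
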