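import Pool.Agent.H539.VG.Defs

/-!
# Ghosh's necessary conditions imply the structure `VG`
-/

namespace H539

/-- cyclically ordered graphs with the two classical necessary conditions of Ghosh for visibility
graphs of simple polygons -/
structure GG (n : ℕ) where
  adj : ℤ → ℤ → Prop
  symm : ∀ s t, adj s t → adj t s
  per : ∀ s t, adj (s + n) t ↔ adj s t
  irr : ∀ s, ¬ adj s s
  succ : ∀ s, adj s (s + 1)
  c1 : ∀ s t : ℤ, adj s t → s + 2 ≤ t → t < s + n → ∃ u, s < u ∧ u < t ∧ adj s u ∧ adj u t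
  c2 : ∀ s t : ℤ, s < t → t < s + n → ¬ adj s t →
    (∃ b : ℤ, s < b ∧ b < t ∧ ∀ p q : ℤ, s ≤ p → p < b → b < q → q ≤ t → ¬ adj p q) ∨
    (∃ b : ℤ, t < b ∧ b < s + n ∧ ∀ p q : ℤ, t ≤ p → p < b → b < q → q ≤ s + n → ¬ adj p q)

variable {n : ℕ}

namespace GG

theorem per2 (G : GG n) {s t : ℤ} (h : G.adj s t) : G.adj t (s + n) :=
  G.symm _ _ ((G.per s t).2 h)

theorem per3 (G : GG n) {s t : ℤ} (h : G.adj s t) : G.adj (s + n) (t + n) :=
  G.symm _ _ ((G.per t _).2 (G.symm _ _ ((G.per s t).2 h)))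

/-- minimal chords over a vertex -/
theorem minchord (G : GG n) (b : ℤ) : ∀ (k : ℕ) (g h : ℤ), (h - g).toNat ≤ k → G.adj g h →
    g < b → b < h → h < g + n →
    ∃ g' h', g ≤ g' ∧ g' < b ∧ b < h' ∧ h' ≤ h ∧ G.adj g' h' ∧ G.adj g' b ∧ G.adj b h' := by
  intro k
  induction k with
  | zero =>
    intro g h hk _ h1 h2 _
    omega
  | succ k ih =>
    intro g h hk hgh h1 h2 h3
    obtain ⟨u, hu1, hu2, hu3, hu4⟩ := G.c1 g h hgh (by omega) h3
    rcases lt_trichotomy u b with hub | hub | hub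
    · obtain ⟨g', h', e1, e2, e3, e4, e5, e6, e7⟩ := ih u h (by omega) hu4 hub h2 (by omega)
      exact ⟨g', h', by omega, e2, e3, e4, e5, e6, e7⟩
    · subst hub
      exact ⟨g, h, le_refl _, h1, h2, le_refl _, hgh, hu3, hu4⟩
    · obtain ⟨g', h', e1, e2, e3, e4, e5, e6, e7⟩ := ih g u (by omega) hu3 h1 hub (by omega)
      exact ⟨g', h', e1, e2, e3, by omega, e5, e6, e7⟩

theorem ca_aux (G : GG n) (v x y : ℤ) (hvx : v < x) (hxy : x < y) (hyv : y < v + n)
    (h1 : G.adj v x) (h2 : G.adj v y) (h3 : ∀ t, x < t → t < y → ¬ G.adj v t) : G.adj x y := by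
  by_contra hne
  obtain ⟨u, hu1, hu2, hu3, hu4⟩ := G.c1 v y h2 (by omega) hyv
  have hux : u ≤ x := by
    by_contra hcon
    exact h3 u (by omega) hu2 hu3
  rcases G.c2 x y hxy (by omega) hne with ⟨b, hb1, hb2, hb⟩ | ⟨b, hb1, hb2, hb⟩
  · -- blocker between `x` and `y`
    have hux' : u < x := by
      rcases lt_or_eq_of_le hux with h | h
      · exact h
      · rw [h] at hu4
        exact absurd hu4 hne
    obtain ⟨g, h, e1, e2, e3, e4, e5, e6, e7⟩ := G.minchord b _ u y le_rfl hu4 (by omega) hb2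
      (by omega)
    have hgx : g < x := by
      by_contra hcon
      exact hb g h (by omega) e2 e3 e4 e5
    have h1' : G.adj x (v + n) := G.per2 h1
    obtain ⟨u', k1, k2, k3, k4⟩ := G.c1 x (v + n) h1' (by omega) (by omega)
    have hvu' : G.adj v u' := (G.per v u').1 (G.symm _ _ k4)
    have hu'y : y ≤ u' := by
      by_contra hcon
      exact h3 u' k1 (by omega) hvu'
    have hu'y' : y < u' := by
      rcases lt_or_eq_of_le hu'y with h | h
      · exact h
      · rw [← h] at k3
        exact absurd k3 hne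
    obtain ⟨g', h', f1, f2, f3, f4, f5, f6, f7⟩ := G.minchord b _ x u' le_rfl k3 hb1 (by omega)
      (by omega)
    have hh'y : y < h' := by
      by_contra hcon
      exact hb g' h' f1 f2 f3 (by omega) f5
    rcases G.c2 v b (by omega) (by omega) (h3 b hb1 hb2) with ⟨c, hc1, hc2, hc⟩ | ⟨c, hc1, hc2, hc⟩
    · have hcx : x ≤ c := by
        by_contra hcon
        exact hc v x le_rfl hc1 (by omega) (by omega) h1
      exact hc g b (by omega) (by omega) hc2 le_rfl e6
    · have hcy : c ≤ y := by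
        by_contra hcon
        exact hc y (v + n) (by omega) (by omega) hc2 le_rfl (G.per2 h2)
      exact hc b h' le_rfl hc1 (by omega) (by omega) f7
  · -- blocker outside
    rcases lt_trichotomy b (v + n) with hbv | hbv | hbv
    · exact hb y (v + n) le_rfl hb1 hbv (by omega) (G.per2 h2)
    · exact hb y (u + n) le_rfl hb1 (by omega) (by omega) (G.per2 hu4)
    · exact hb (v + n) (x + n) (by omega) hbv hb2 le_rfl (G.per3 h1)

/-- a minimal chord over the interval `[t0, r]` -/
theorem minchord2 (G : GG n) (x y t0 r : ℤ) (htr : t0 ≤ r) (hxyn : y < x + n) :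
    ∀ (k : ℕ) (g h : ℤ), (h - g).toNat ≤ k → G.adj g h → x ≤ g → g < t0 → r < h → h ≤ y →
    ∃ g' h' a, x ≤ g' ∧ g' < t0 ∧ r < h' ∧ h' ≤ y ∧ t0 ≤ a ∧ a ≤ r ∧ G.adj g' a ∧ G.adj a h' := by
  intro k
  induction k with
  | zero =>
    intro g h hk _ _ h2 h3 _
    omega
  | succ k ih =>
    intro g h hk hgh h1 h2 h3 h4
    obtain ⟨a, ha1, ha2, ha3, ha4⟩ := G.c1 g h hgh (by omega) (by omega)
    by_cases hat : a < t0
    · exact ih a h (by omega) ha4 (by omega) hat h3 h4
    · by_cases har : r < a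
      · exact ih g a (by omega) ha3 h1 h2 har (by omega)
      · exact ⟨g, h, a, h1, h2, h3, h4, by omega, by omega, ha3, ha4⟩

theorem ps_aux (G : GG n) (v x y : ℤ) (hvx : v < x) (hxy : x < y) (hyv : y < v + n)
    (h1 : G.adj v x) (h2 : G.adj v y) (h3 : ∀ t, x < t → t < y → ¬ G.adj v t) :
    ∃ w, x ≤ w ∧ w < y ∧ (∀ p q, v ≤ p → p < x → x < q → q ≤ w → ¬ G.adj p q) ∧
      (∀ p q, w < p → p < y → y < q → q ≤ v + n → ¬ G.adj p q) := by
  classical
  have hadj := G.ca_aux v x y hvx hxy hyv h1 h2 h3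
  by_cases hP : ∀ p q, v ≤ p → p < x → x < q → q ≤ y - 1 → ¬ G.adj p q
  · exact ⟨y - 1, by omega, by omega, hP, fun p q e1 e2 _ _ => by omega⟩
  · push Not at hP
    obtain ⟨p1, q1, hp1, hp2, hq1, hq2, hpq⟩ := hP
    -- the least `q` which is seen from `[v, x)`
    have hex : ∃ m : ℕ, ∃ p, v ≤ p ∧ p < x ∧ G.adj p (x + 1 + m) :=
      ⟨(q1 - x - 1).toNat, p1, hp1, hp2, by
        have : x + 1 + ((q1 - x - 1).toNat : ℤ) = q1 := by omega
        rw [this]; exact hpq⟩
    obtain ⟨p0, hp0, hp0x, hp0t⟩ := Nat.find_spec hex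
    have hmin := fun m => Nat.find_min (H := hex) (m := m)
    set m0 := Nat.find hex with hm0
    have hm0le : (m0 : ℤ) ≤ q1 - x - 1 := by
      by_contra hcon
      have hlt : (q1 - x - 1).toNat < m0 := by omega
      refine hmin _ hlt ⟨p1, hp1, hp2, ?_⟩
      have : x + 1 + ((q1 - x - 1).toNat : ℤ) = q1 := by omega
      rw [this]; exact hpq
    obtain ⟨t0, ht0⟩ : ∃ t0 : ℤ, t0 = x + 1 + m0 := ⟨_, rfl⟩
    rw [← ht0] at hp0t
    refine ⟨t0 - 1, by omega, by omega, ?_, ?_⟩
    · intro p q e1 e2 e3 e4 e5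
      have hlt : (q - x - 1).toNat < m0 := by omega
      refine hmin _ hlt ⟨p, e1, e2, ?_⟩
      have : x + 1 + ((q - x - 1).toNat : ℤ) = q := by omega
      rw [this]; exact e5
    · intro r z e1 e2 e3 e4 hrz
      obtain ⟨g, h, a, f1, f2, f3, f4, f5, f6, f7, f8⟩ := G.minchord2 x y t0 r (by omega)
        (by omega) _ x y le_rfl hadj le_rfl (by omega) e2 le_rfl
      rcases G.c2 v a (by omega) (by omega) (h3 a (by omega) (by omega)) with
        ⟨c, hc1, hc2, hc⟩ | ⟨c, hc1, hc2, hc⟩
      · have hcx : x ≤ c := by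
          by_contra hcon
          exact hc v x le_rfl hc1 (by omega) (by omega) h1
        have hct : t0 ≤ c := by
          by_contra hcon
          exact hc p0 t0 hp0 (by omega) (by omega) (by omega) hp0t
        exact hc g a (by omega) (by omega) hc2 le_rfl f7
      · have hcy : c ≤ y := by
          by_contra hcon
          exact hc y (v + n) (by omega) (by omega) hc2 le_rfl (G.per2 h2)
        have hcr : c ≤ r := by
          by_contra hcon
          exact hc r z (by omega) (by omega) (by omega) e4 hrz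
        exact hc a h le_rfl hc1 (by omega) (by omega) f8

/-- Ghosh's conditions imply the structure `VG`. -/
def toVG (G : GG n) : VG n where
  adj := G.adj
  symm := G.symm
  per := G.per
  irr := G.irr
  succ := G.succ
  c1 := G.c1
  ca := by
    first
    | exact G.ca_aux
    | (intro v x y h1 h2 h3 h4 h5 h6
       refine G.ca_aux v x y (by omega) (by omega) (by omega) h4 h5 fun t ht1 ht2 => ?_
       have h := h6 t.toNat (by omega) (by omega)
       have e : ((t.toNat : ℕ) : ℤ) = t := by omega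
       rwa [e] at h)
  ps := by
    first
    | exact G.ps_aux
    | (intro v x y h1 h2 h3 h4 h5 h6
       obtain ⟨w, w1, w2, w3, w4⟩ := G.ps_aux v x y (by omega) (by omega) (by omega) h4 h5
         fun t ht1 ht2 => by
           have h := h6 t.toNat (by omega) (by omega)
           have e : ((t.toNat : ℕ) : ℤ) = t := by omega
           rwa [e] at h
       refine ⟨w.toNat, by omega, by omega, fun p q e1 e2 e3 e4 => ?_,
         fun p q e1 e2 e3 e4 => ?_⟩
       · exact w3 p q (by omega) (by omega) (by omega) (by omega)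
       · exact w4 p q (by omega) (by omega) (by omega) (by omega))

@[simp] theorem toVG_adj (G : GG n) : G.toVG.adj = G.adj := rfl

end GG

end H539
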