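import Pool.Agent.H539.VG.TA
import Pool.Agent.H539.VG.TB
import Pool.Agent.H539.VG.TG

/-!
Assembly (helper605): an agent that knows the number `n` of vertices, when the number of vertices
is prime, or the start vertex is indistinguishable from at most two others, or all vertices are
indistinguishable.
-/

set_option autoImplicit false

namespace H539

/-- the vertices a and b cannot be distinguished by any sequence of moves -/
def Indist {n : ℕ} (G : GG n) (a b : ℤ) : Prop :=
  ∀ l : List ℕ, dg G.adj n (l.foldl (go G.adj n) a) = dg G.adj n (l.foldl (go G.adj n) b)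

variable {n : ℕ}

/-- the words modulo `k`, where `k` is the distance of indistinguishable vertices -/
theorem bisim_words' {n : ℕ} (hn : 3 ≤ n) (G G' : VG n) (s s' : ℤ) (h : Bisim G G' s s') :
    ∃ k : ℕ, 0 < k ∧ k ∣ n ∧ (∀ i : ℤ, Bisim G G (s + i) (s + i + k)) ∧
      ∀ i j : ℤ, i % k = j % k →
      wd (fun a b => G.adj (s + a) (s + b)) n k i =
        wd (fun a b => G'.adj (s' + a) (s' + b)) n k j := by
  obtain ⟨a, ha⟩ := Int.subgroup_cyclic (shf hn G G' s s' h)
  have hmem : ∀ d : ℤ, Bisim G G' (s + d) s' ↔ ((a.natAbs : ℕ) : ℤ) ∣ d := by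
    intro d
    rw [← mem_shf hn G G' s s' h, ha, AddSubgroup.mem_closure_singleton]
    rw [Int.natAbs_dvd]
    constructor
    · rintro ⟨m, hm⟩
      exact ⟨m, by rw [← hm, smul_eq_mul, mul_comm]⟩
    · rintro ⟨m, hm⟩
      exact ⟨m, by rw [hm, smul_eq_mul, mul_comm]⟩
  have hR : ∀ i j : ℤ, Bisim G G' (s + i) (s' + j) ↔ ((a.natAbs : ℕ) : ℤ) ∣ i - j := by
    intro i j
    rw [← hmem]
    constructor
    · intro h1
      have h2 := h1.add hn (-j)
      rw [add_assoc s' j, add_neg_cancel, add_zero, add_assoc, ← sub_eq_add_neg] at h2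
      exact h2
    · intro h1
      have h2 := h1.add hn j
      rw [add_assoc, sub_add_cancel] at h2
      exact h2
  have hn0 : ((a.natAbs : ℕ) : ℤ) ∣ (n : ℤ) := by
    rw [← hmem]
    have := (bisim_k G G' s s' 1 0).2 h
    rw [one_mul, zero_mul, add_zero] at this
    exact this
  have hn1 : a.natAbs ∣ n := by exact_mod_cast hn0
  refine ⟨a.natAbs, Nat.pos_of_dvd_of_pos hn1 (by omega), hn1, fun i => ?_, fun i j hij => ?_⟩
  · have h1 : Bisim G G' (s + i) (s' + i) := (hR i i).2 (by rw [sub_self]; exact dvd_zero _)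
    have h2 : Bisim G G' (s + (i + (a.natAbs : ℕ))) (s' + i) := (hR _ _).2 (by
      rw [add_sub_cancel_left])
    rw [← add_assoc] at h2
    exact Bisim.trans h1 h2.symm
  have hb : Bisim G G' (s + i) (s' + j) :=
    (hR i j).2 (Int.dvd_of_emod_eq_zero (Int.emod_eq_emod_iff_emod_sub_eq_zero.1 hij))
  rw [wd_shift, wd_shift]
  have hlen : (nbrs G.adj n (s + i)).length = (nbrs G'.adj n (s' + j)).length := hb.dg
  apply List.ext_getElem
  · rw [List.length_map, List.length_map, hlen]
  · intro l h1 h2
    rw [List.length_map] at h1 h2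
    rw [List.getElem_map, List.getElem_map]
    have h3 := hb.go l
    unfold go at h3
    rw [List.getD_eq_getElem _ _ h1, List.getD_eq_getElem _ _ h2] at h3
    have h4 := (hR ((nbrs G.adj n (s + i))[l] - s) ((nbrs G'.adj n (s' + j))[l] - s')).1
      (by simpa using h3)
    exact Int.emod_eq_emod_iff_emod_sub_eq_zero.2 (Int.emod_eq_zero_of_dvd h4)

/-- a complete structure is determined -/
theorem full_iff (hn : 3 ≤ n) (H : VG n) (hH : ∀ s t : ℤ, s < t → t < s + n → H.adj s t)
    (s t : ℤ) : H.adj s t ↔ ¬ ((t - s) % n = 0) := by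
  have hz : (0 : ℤ) < n := by omega
  have e : (s + (t - s) % n) % n = t % n := by
    rw [Int.add_emod, Int.emod_emod_of_dvd _ (dvd_refl _), ← Int.add_emod]
    congr 1
    ring
  have h0 := Int.emod_nonneg (t - s) (by omega : (n : ℤ) ≠ 0)
  have h1 := Int.emod_lt_of_pos (t - s) hz
  constructor
  · intro h h2
    rw [h2, add_zero] at e
    exact H.irr s ((H.congr_mod rfl e).2 h)
  · intro h
    exact (H.congr_mod rfl e).1 (hH s (s + (t - s) % n) (by omega) (by omega))

/-- two regular structures are equal -/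
theorem eq_of_regular (hn : 3 ≤ n) (G G' : VG n) (h : ∀ s t, dg G.adj n s = dg G.adj n t)
    (h' : ∀ s t, dg G'.adj n s = dg G'.adj n t) (s t : ℤ) : G.adj s t ↔ G'.adj s t := by
  rw [full_iff hn G (complete_of_regular hn G h), full_iff hn G' (complete_of_regular hn G' h')]

/-- `k` is a divisor of `n` such that `n` divides `2 k` or `3 k` -/
theorem asm_div (k : ℕ) (hn : 0 < n) (hk : 0 < k) (hkn : k ∣ n) (h : n ∣ 2 * k ∨ n ∣ 3 * k) :
    n = k ∨ n = 2 * k ∨ n = 3 * k := by
  obtain ⟨m, rfl⟩ := hkn
  have hm : 0 < m := by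
    rcases Nat.eq_zero_or_pos m with h0 | h0
    · rw [h0, mul_zero] at hn
      omega
    · exact h0
  rcases h with h | h
  · rw [mul_comm 2 k] at h
    have h2 : m ∣ 2 := Nat.dvd_of_mul_dvd_mul_left hk h
    have h3 : m ≤ 2 := Nat.le_of_dvd (by norm_num) h2
    have h4 : m = 1 ∨ m = 2 := by omega
    rcases h4 with rfl | rfl
    · left; ring
    · right; left; ring
  · rw [mul_comm 3 k] at h
    have h2 : m ∣ 3 := Nat.dvd_of_mul_dvd_mul_left hk h
    rcases (Nat.dvd_prime Nat.prime_three).1 h2 with rfl | rfl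
    · left; ring
    · right; right; ring

theorem asm {n : ℕ} (hn : 3 ≤ n)
    (U : ∀ (k : ℕ), 0 < k → (n = 2 * k ∨ n = 3 * k) → ∀ G G' : VG n,
      (∀ i j : ℤ, i % k = j % k → wd G.adj n k i = wd G'.adj n k j) →
      ∀ s t, G.adj s t ↔ G'.adj s t) :
    ∃ S : Strategy, ∀ (G : GG n) (s : ℤ),
      (n.Prime ∨ (∀ i : ℤ, Indist G s (s + i) → (n : ℤ) ∣ 2 * i ∨ (n : ℤ) ∣ 3 * i) ∨
        (∀ i : ℤ, Indist G s i)) →
      ∃ t : ℕ, ∀ (G' : GG n) (s' : ℤ), obs S G.adj n s t = obs S G'.adj n s' t →
        ∃ c : ℤ, ∀ i j, G.adj i j ↔ G'.adj (i + c) (j + c) := by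
  obtain ⟨S, hS⟩ := exists_strategy hn
  refine ⟨S, fun G s hcase => ?_⟩
  obtain ⟨t, ht⟩ := hS G.toVG s
  refine ⟨t, fun G' s' h => ?_⟩
  have hb := ht G'.toVG s' h
  set p := (run S G.toVG.adj n s t).1 with hp
  set p' := (run S G'.toVG.adj n s' t).1 with hp'
  obtain ⟨k, hk0, hkn, hper, hw⟩ := bisim_words' hn G.toVG G'.toVG p p' hb
  have hdeg : ∀ i j : ℤ, i % k = j % k → dg G.adj n (p + i) = dg G'.adj n (p' + j) := by
    intro i j hij
    have h1 := congrArg List.length (hw i j hij)
    rw [wd_shift, wd_shift, List.length_map, List.length_map] at h1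
    exact h1
  -- the three possible conclusions
  have regular : (∀ a b : ℤ, dg G.adj n a = dg G.adj n b) →
      ∀ a b : ℤ, G.adj (p + a) (p + b) ↔ G'.adj (p' + a) (p' + b) := by
    intro hreg a b
    have h1 : ∀ a : ℤ, dg G'.adj n a = dg G.adj n 0 := by
      intro a
      have h2 := hdeg (a - p') (a - p') rfl
      rw [show p' + (a - p') = a by ring] at h2
      rw [← h2]
      exact hreg _ _
    have hG : ∀ s t, dg (G.toVG.shift p).adj n s = dg (G.toVG.shift p).adj n t := by
      have e : ∀ v, dg (G.toVG.shift p).adj n v = dg G.adj n (v + p) := fun v =>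
        (dg_shift (n := n) (G.toVG.shift p).adj G.adj p v (fun t => by
          show G.adj (v + p) (t + p) ↔ G.adj (p + v) (p + t)
          rw [add_comm v p, add_comm t p])).symm
      intro s t
      rw [e, e]
      exact hreg _ _
    have hG' : ∀ s t, dg (G'.toVG.shift p').adj n s = dg (G'.toVG.shift p').adj n t := by
      have e : ∀ v, dg (G'.toVG.shift p').adj n v = dg G'.adj n (v + p') := fun v =>
        (dg_shift (n := n) (G'.toVG.shift p').adj G'.adj p' v (fun t => by
          show G'.adj (v + p') (t + p') ↔ G'.adj (p' + v) (p' + t)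
          rw [add_comm v p', add_comm t p'])).symm
      intro s t
      rw [e, e, h1, h1]
    exact eq_of_regular hn (G.toVG.shift p) (G'.toVG.shift p') hG hG' a b
  have small : (n = k ∨ n = 2 * k ∨ n = 3 * k) →
      ∀ a b : ℤ, G.adj (p + a) (p + b) ↔ G'.adj (p' + a) (p' + b) := by
    intro hk
    rcases hk with heq | hk
    · intro a b
      have h1 := adj_iff_wd hn (G.toVG.shift p) a b
      have h2 := adj_iff_wd hn (G'.toVG.shift p') a b
      have h3 := hw a a rfl
      rw [← heq] at h3
      change G.adj (p + a) (p + b) ↔ _ at h1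
      change G'.adj (p' + a) (p' + b) ↔ _ at h2
      rw [h1, h2]
      have h4 : wd (G.toVG.shift p).adj n n a = wd (G'.toVG.shift p').adj n n a := h3
      rw [h4]
    · exact U k hk0 hk (G.toVG.shift p) (G'.toVG.shift p') hw
  have key : ∀ a b : ℤ, G.adj (p + a) (p + b) ↔ G'.adj (p' + a) (p' + b) := by
    rcases hcase with hpr | hcl | hall
    · rcases (Nat.dvd_prime hpr).1 hkn with h1 | h1
      · apply regular
        have h2 : ∀ a : ℤ, dg G.adj n a = dg G'.adj n (p' + 0) := by
          intro a
          have h3 := hdeg (a - p) 0 (by rw [h1]; simp)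
          rw [show p + (a - p) = a by ring] at h3
          exact h3
        intro a b
        rw [h2, h2]
      · exact small (Or.inl h1.symm)
    · apply small
      apply asm_div k (by omega) hk0 hkn
      have h1 : Indist G s (s + k) := by
        have h2 := hper (s - p)
        rw [show p + (s - p) = s by ring] at h2
        exact h2
      rcases hcl k h1 with h2 | h2
      · left
        exact_mod_cast h2
      · right
        exact_mod_cast h2
    · apply regular
      have h1 : ∀ a : ℤ, dg G.adj n s = dg G.adj n a := fun a => hall a []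
      intro a b
      exact (h1 a).symm.trans (h1 b)
  refine ⟨p' - p, fun i j => ?_⟩
  have := key (i - p) (j - p)
  rw [show p + (i - p) = i by ring, show p + (j - p) = j by ring,
    show p' + (i - p) = i + (p' - p) by ring, show p' + (j - p) = j + (p' - p) by ring] at this
  exact this

end H539
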