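import Pool.Agent.H539.VG.Asm

/-!
Assembly, with a condition on the divisors of the number of vertices.
-/

set_option autoImplicit false

namespace H539

theorem asm2 {n : ℕ} (hn : 3 ≤ n)
    (U : ∀ (k : ℕ), 0 < k → (n = 2 * k ∨ n = 3 * k) → ∀ G G' : VG n,
      (∀ i j : ℤ, i % k = j % k → wd G.adj n k i = wd G'.adj n k j) →
      ∀ s t, G.adj s t ↔ G'.adj s t) :
    ∃ S : Strategy, ∀ (G : GG n) (s : ℤ),
      ((∀ k : ℕ, k ∣ n → k = 1 ∨ n = k ∨ n = 2 * k ∨ n = 3 * k) ∨
        (∀ i : ℤ, Indist G s (s + i) → (n : ℤ) ∣ 2 * i ∨ (n : ℤ) ∣ 3 * i) ∨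
        (∀ i : ℤ, Indist G s i)) →
      ∃ t : ℕ, ∀ (G' : GG n) (s' : ℤ), obs S G.adj n s t = obs S G'.adj n s' t →
        ∃ c : ℤ, ∀ i j, G.adj i j ↔ G'.adj (i + c) (j + c) := by
  obtain ⟨S, hS⟩ := exists_strategy hn
  refine ⟨S, fun G s hcase => ?_⟩
  obtain ⟨t, ht⟩ := hS G.toVG s
  refine ⟨t, fun G' s' h => ?_⟩
  have hb := ht G'.toVG s' h
  set p := (run S G.toVG.adj n s t).1 with hp
  set p' := (run S G'.toVG.adj n s' t).1 with hp'
  obtain ⟨k, hk0, hkn, hper, hw⟩ := bisim_words' hn G.toVG G'.toVG p p' hb
  have hdeg : ∀ i j : ℤ, i % k = j % k → dg G.adj n (p + i) = dg G'.adj n (p' + j) := by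
    intro i j hij
    have h1 := congrArg List.length (hw i j hij)
    rw [wd_shift, wd_shift, List.length_map, List.length_map] at h1
    exact h1
  -- the three possible conclusions
  have regular : (∀ a b : ℤ, dg G.adj n a = dg G.adj n b) →
      ∀ a b : ℤ, G.adj (p + a) (p + b) ↔ G'.adj (p' + a) (p' + b) := by
    intro hreg a b
    have h1 : ∀ a : ℤ, dg G'.adj n a = dg G.adj n 0 := by
      intro a
      have h2 := hdeg (a - p') (a - p') rfl
      rw [show p' + (a - p') = a by ring] at h2
      rw [← h2]
      exact hreg _ _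
    have hG : ∀ s t, dg (G.toVG.shift p).adj n s = dg (G.toVG.shift p).adj n t := by
      have e : ∀ v, dg (G.toVG.shift p).adj n v = dg G.adj n (v + p) := fun v =>
        (dg_shift (n := n) (G.toVG.shift p).adj G.adj p v (fun t => by
          show G.adj (v + p) (t + p) ↔ G.adj (p + v) (p + t)
          rw [add_comm v p, add_comm t p])).symm
      intro s t
      rw [e, e]
      exact hreg _ _
    have hG' : ∀ s t, dg (G'.toVG.shift p').adj n s = dg (G'.toVG.shift p').adj n t := by
      have e : ∀ v, dg (G'.toVG.shift p').adj n v = dg G'.adj n (v + p') := fun v =>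
        (dg_shift (n := n) (G'.toVG.shift p').adj G'.adj p' v (fun t => by
          show G'.adj (v + p') (t + p') ↔ G'.adj (p' + v) (p' + t)
          rw [add_comm v p', add_comm t p'])).symm
      intro s t
      rw [e, e, h1, h1]
    exact eq_of_regular hn (G.toVG.shift p) (G'.toVG.shift p') hG hG' a b
  have small : (n = k ∨ n = 2 * k ∨ n = 3 * k) →
      ∀ a b : ℤ, G.adj (p + a) (p + b) ↔ G'.adj (p' + a) (p' + b) := by
    intro hk
    rcases hk with heq | hk
    · intro a b
      have h1 := adj_iff_wd hn (G.toVG.shift p) a b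
      have h2 := adj_iff_wd hn (G'.toVG.shift p') a b
      have h3 := hw a a rfl
      rw [← heq] at h3
      change G.adj (p + a) (p + b) ↔ _ at h1
      change G'.adj (p' + a) (p' + b) ↔ _ at h2
      rw [h1, h2]
      have h4 : wd (G.toVG.shift p).adj n n a = wd (G'.toVG.shift p').adj n n a := h3
      rw [h4]
    · exact U k hk0 hk (G.toVG.shift p) (G'.toVG.shift p') hw
  have key : ∀ a b : ℤ, G.adj (p + a) (p + b) ↔ G'.adj (p' + a) (p' + b) := by
    rcases hcase with hpr | hcl | hall
    · rcases hpr k hkn with h1 | h1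
      · apply regular
        have h2 : ∀ a : ℤ, dg G.adj n a = dg G'.adj n (p' + 0) := by
          intro a
          have h3 := hdeg (a - p) 0 (by rw [h1]; simp)
          rw [show p + (a - p) = a by ring] at h3
          exact h3
        intro a b
        rw [h2, h2]
      · exact small h1
    · apply small
      apply asm_div k (by omega) hk0 hkn
      have h1 : Indist G s (s + k) := by
        have h2 := hper (s - p)
        rw [show p + (s - p) = s by ring] at h2
        exact h2
      rcases hcl k h1 with h2 | h2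
      · left
        exact_mod_cast h2
      · right
        exact_mod_cast h2
    · apply regular
      have h1 : ∀ a : ℤ, dg G.adj n s = dg G.adj n a := fun a => hall a []
      intro a b
      exact (h1 a).symm.trans (h1 b)
  refine ⟨p' - p, fun i j => ?_⟩
  have := key (i - p) (j - p)
  rw [show p + (i - p) = i by ring, show p + (j - p) = j by ring,
    show p' + (i - p) = i + (p' - p) by ring, show p' + (j - p) = j + (p' - p) by ring] at this
  exact this

end H539
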