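import Mathlib

/-!
# Visibility structures and exploring agents: definitions

The vertices of a polygon with `n` vertices are indexed by the integers modulo `n`, in
counter-clockwise order along the boundary; all relations are written on `ℤ` and are periodic.
-/

namespace H539

open Classical

/-- The combinatorial properties of the visibility graph of a simple polygon with `n` vertices,
no three of them collinear, used in the proofs. -/
structure VG (n : ℕ) where
  /-- visibility of the vertices `s` and `t` -/
  adj : ℤ → ℤ → Prop
  symm : ∀ s t, adj s t → adj t s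
  per : ∀ s t, adj (s + n) t ↔ adj s t
  irr : ∀ s, ¬ adj s s
  succ : ∀ s, adj s (s + 1)
  /-- every chord is a side of a triangle on each side -/
  c1 : ∀ s t, adj s t → s + 2 ≤ t → t < s + n → ∃ u, s < u ∧ u < t ∧ adj s u ∧ adj u t
  /-- consecutive neighbours of a vertex see each other -/
  ca : ∀ v x y, v < x → x < y → y < v + n → adj v x → adj v y →
    (∀ t, x < t → t < y → ¬ adj v t) → adj x y
  /-- the vertices between two consecutive neighbours `x`, `y` of `v` are hidden behind `x` (first
  part) or behind `y` (second part) -/
  ps : ∀ v x y, v < x → x < y → y < v + n → adj v x → adj v y →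
    (∀ t, x < t → t < y → ¬ adj v t) →
    ∃ w, x ≤ w ∧ w < y ∧ (∀ p q, v ≤ p → p < x → x < q → q ≤ w → ¬ adj p q) ∧
      (∀ p q, w < p → p < y → y < q → q ≤ v + n → ¬ adj p q)

variable {n : ℕ}

/-- the vertices seen from `v`, in counter-clockwise order starting with the next vertex on the
boundary -/
noncomputable def nbrs (adj : ℤ → ℤ → Prop) (n : ℕ) (v : ℤ) : List ℤ :=
  ((List.range (n - 1)).map (fun i : ℕ => v + 1 + (i : ℤ))).filter (fun t => decide (adj v t))

/-- the number of vertices seen from `v` -/
noncomputable def dg (adj : ℤ → ℤ → Prop) (n : ℕ) (v : ℤ) : ℕ := (nbrs adj n v).length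

/-- the position after moving from `v` to the vertex with position `i` in the list of visible
vertices -/
noncomputable def go (adj : ℤ → ℤ → Prop) (n : ℕ) (v : ℤ) (i : ℕ) : ℤ := (nbrs adj n v).getD i v

/-- A strategy: it gets the list of the former observations (degree and chosen position) and the
degree seen at present, and chooses a position (taken modulo the degree). -/
abbrev Strategy : Type := List (ℕ × ℕ) → ℕ → ℕ

/-- position and list of observations after `t` steps of the strategy `S`, starting at `v0` -/
noncomputable def run (S : Strategy) (adj : ℤ → ℤ → Prop) (n : ℕ) (v0 : ℤ) :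
    ℕ → ℤ × List (ℕ × ℕ)
  | 0 => (v0, [])
  | t + 1 =>
    let q := run S adj n v0 t
    let d := dg adj n q.1
    let i := S q.2 d % d
    (go adj n q.1 i, q.2 ++ [(d, i)])

/-- the first `t` observations -/
noncomputable def obs (S : Strategy) (adj : ℤ → ℤ → Prop) (n : ℕ) (v0 : ℤ) (t : ℕ) :
    List (ℕ × ℕ) := (run S adj n v0 t).2

/-- the residues modulo `k` of the vertices seen from `v` -/
noncomputable def wd (adj : ℤ → ℤ → Prop) (n k : ℕ) (v : ℤ) : List ℤ :=
  (nbrs adj n v).map (fun t => t % (k : ℤ))

end H539
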