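import Pool.Agent.H539.VG.Ws
import Pool.Agent.H539.VG.TB

/-!
Families of visibility structures with the same words modulo `k`.
-/

set_option autoImplicit false

namespace H539

open Classical

variable {n : ℕ} {ι : Type}

/-- the chords of length `d` depend only on the class -/
def Pd (F : ι → VG n) (k d : ℕ) : Prop :=
  ∀ (x y : ι) (i j : ℤ), i % (k : ℤ) = j % (k : ℤ) →
    ((F x).adj i (i + (d : ℤ)) ↔ (F y).adj j (j + (d : ℤ)))

def Wd (F : ι → VG n) (k : ℕ) : Prop :=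
  ∀ (x y : ι) (i j : ℤ), i % (k : ℤ) = j % (k : ℤ) → wd (F x).adj n k i = wd (F y).adj n k j

lemma adj_comm (G : VG n) (s t : ℤ) : G.adj s t ↔ G.adj t s := ⟨G.symm _ _, G.symm _ _⟩

lemma mod_add {k : ℕ} {i j : ℤ} (h : i % (k : ℤ) = j % (k : ℤ)) (d : ℤ) :
    (i + d) % (k : ℤ) = (j + d) % (k : ℤ) := by
  rw [Int.add_emod, h, ← Int.add_emod]

lemma Pd_compl {F : ι → VG n} {k d : ℕ} (hd : d ≤ n) (h : Pd F k (n - d)) : Pd F k d := by
  intro x y i j hij
  have h1 := h x y (i + d) (j + d) (mod_add hij _)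
  have e : ∀ a : ℤ, a + (d : ℤ) + ((n - d : ℕ) : ℤ) = a + n := by
    intro a
    push_cast [Nat.cast_sub hd]
    ring
  rw [e, e, (F x).per', (F y).per'] at h1
  rw [adj_comm (F x), adj_comm (F y)]
  exact h1

lemma all_of_Pd {F : ι → VG n} {k : ℕ} (hn : 0 < n) (h : ∀ d : ℕ, 0 < d → d < n → Pd F k d)
    (x y : ι) (s t : ℤ) : (F x).adj s t ↔ (F y).adj s t := by
  have hz : (0 : ℤ) < n := by exact_mod_cast hn
  have h0 := Int.emod_nonneg (t - s) (by omega : (n : ℤ) ≠ 0)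
  have h1 := Int.emod_lt_of_pos (t - s) hz
  obtain ⟨d, hd⟩ := Int.eq_ofNat_of_zero_le h0
  have e : (s + (d : ℤ)) % n = t % n := by
    have hd' : (d : ℤ) = (t - s) % n := hd.symm
    rw [hd', Int.add_emod, Int.emod_emod_of_dvd _ (dvd_refl _), ← Int.add_emod]
    congr 1
    ring
  rw [← (F x).congr_mod rfl e, ← (F y).congr_mod rfl e]
  rcases Nat.eq_zero_or_pos d with hd0 | hd0
  · subst hd0
    simp only [Nat.cast_zero, add_zero]
    exact iff_of_false ((F x).irr s) ((F y).irr s)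
  · refine h d hd0 ?_ x y s s rfl
    have : (d : ℤ) < n := by rw [← show (t - s) % n = (d : ℤ) from hd]; exact h1
    exact_mod_cast this

/-- from congruence and bounds to a multiple -/
lemma mult_of_mod {k : ℕ} {j a b : ℤ} (h : (j + a) % (k : ℤ) = (j + b) % (k : ℤ)) :
    ∃ q : ℤ, a = b + q * k := by
  have h3 : (k : ℤ) ∣ (j + a) - (j + b) :=
    Int.ModEq.dvd (show (j + b) ≡ (j + a) [ZMOD k] from h.symm)
  obtain ⟨q, hq⟩ := h3
  exact ⟨q, by linarith⟩

/-- forward: if the chord of length `ℓ` is present somewhere, then each vertex of the class has a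
next visible vertex of the class of the end -/
lemma fw {F : ι → VG n} {k ℓ : ℕ} (hw : Wd F k) (h0 : 0 < ℓ) (hn : ℓ < n)
    (IH : ∀ e : ℕ, 0 < e → e < ℓ → Pd F k e) {x y : ι} {i j : ℤ}
    (hij : i % (k : ℤ) = j % (k : ℤ)) (h : (F x).adj i (i + (ℓ : ℤ))) :
    ∃ d : ℕ, ℓ ≤ d ∧ d < n ∧ (F y).adj j (j + (d : ℤ)) ∧ (∃ q : ℤ, (d : ℤ) = ℓ + q * k) ∧
      ∀ e : ℕ, ℓ ≤ e → e < d → ¬ (F y).adj j (j + (e : ℤ)) := by
  obtain ⟨d, h1, h2, h3, h4, h5⟩ := next_fwd hij (hw x y i j hij) h0 hn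
    (fun e he1 he2 => IH e he1 he2 x y i j hij) h
  rw [mod_add hij] at h4
  exact ⟨d, h1, h2, h3, mult_of_mod h4, h5⟩

/-- backward version -/
lemma bw {F : ι → VG n} {k ℓ : ℕ} (hkn : (k : ℤ) ∣ n) (hw : Wd F k) (h0 : 0 < ℓ) (hn : ℓ < n)
    (IH : ∀ e : ℕ, 0 < e → e < ℓ → Pd F k e) {x y : ι} {i j : ℤ}
    (hij : i % (k : ℤ) = j % (k : ℤ)) (h : (F x).adj i (i + (ℓ : ℤ))) :
    ∃ d : ℕ, ℓ ≤ d ∧ d < n ∧ (F y).adj (j + ℓ - d) (j + (ℓ : ℤ)) ∧
      (∃ q : ℤ, (d : ℤ) = ℓ + q * k) ∧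
      ∀ e : ℕ, ℓ ≤ e → e < d → ¬ (F y).adj (j + ℓ - e) (j + (ℓ : ℤ)) := by
  have key : ∀ (G : VG n) (t : ℤ) (e : ℕ), e ≤ n →
      (G.adj t (t + ((n - e : ℕ) : ℤ)) ↔ G.adj (t - e) t) := by
    intro G t e he
    have e1 : t + ((n - e : ℕ) : ℤ) = (t - e) + n := by
      push_cast [Nat.cast_sub he]; ring
    rw [e1, G.per', adj_comm]
  obtain ⟨d, h1, h2, h3, h4, h5⟩ := next_bwd (ℓ := ℓ) (mod_add hij ℓ)
    (hw x y (i + ℓ) (j + ℓ) (mod_add hij ℓ)) h0 hn
    (fun e he1 he2 => by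
      have e1 : e = n - (n - e) := by omega
      rw [e1, key _ _ _ (by omega), key _ _ _ (by omega)]
      have := IH (n - e) (by omega) (by omega) x y (i + ℓ - (n - e : ℕ)) (j + ℓ - (n - e : ℕ))
        (by
          have := mod_add hij ((ℓ : ℤ) - (n - e : ℕ))
          rw [show i + ((ℓ : ℤ) - (n - e : ℕ)) = i + ℓ - (n - e : ℕ) by ring,
            show j + ((ℓ : ℤ) - (n - e : ℕ)) = j + ℓ - (n - e : ℕ) by ring] at this
          exact this)
      rw [sub_add_cancel, sub_add_cancel] at this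
      exact this)
    (by
      rw [key _ _ _ (by omega), show i + (ℓ : ℤ) - ℓ = i by ring]
      exact h)
  refine ⟨n - d, by omega, by omega, ?_, ?_, ?_⟩
  · have := (key (F y) (j + ℓ) (n - d) (by omega)).1 (by
      rw [show n - (n - d) = d by omega]; exact h3)
    exact this
  · obtain ⟨c, hc⟩ := hkn
    rw [mod_add (mod_add hij ℓ)] at h4
    obtain ⟨q, hq⟩ := mult_of_mod h4
    refine ⟨-q, ?_⟩
    have e1 : ((n - ℓ : ℕ) : ℤ) = (n : ℤ) - ℓ := by push_cast [Nat.cast_sub hn.le]; ring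
    rw [e1] at hq
    have e2 : ((n - d : ℕ) : ℤ) = (n : ℤ) - d := by
      push_cast [Nat.cast_sub (show d ≤ n by omega)]; ring
    rw [e2, hq]
    ring
  · intro e he1 he2 hcon
    have h6 := h5 (n - e) (by omega) (by omega)
    rw [key _ _ _ (by omega)] at h6
    exact h6 hcon

/-- largest offset below `ℓ` -/
lemma exists_max {p : ℕ → Prop} {ℓ : ℕ} (h1 : p 1) (hℓ : 1 < ℓ) :
    ∃ a, 1 ≤ a ∧ a < ℓ ∧ p a ∧ ∀ e, a < e → e < ℓ → ¬ p e := by
  induction ℓ with
  | zero => omega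
  | succ m ih =>
    by_cases hm : 1 < m
    · by_cases hp : p m
      · exact ⟨m, by omega, by omega, hp, fun e h2 h3 => by omega⟩
      · obtain ⟨a, h2, h3, h4, h5⟩ := ih hm
        refine ⟨a, h2, by omega, h4, fun e h6 h7 => ?_⟩
        by_cases he : e = m
        · subst he; exact hp
        · exact h5 e h6 (by omega)
    · have : m = 1 := by omega
      subst this
      exact ⟨1, le_refl _, by omega, h1, fun e h2 h3 => by omega⟩

/-- mutual neighbours -/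
lemma mutl {G : VG n} {s : ℤ} {ℓ D : ℕ} (hℓ : 1 < ℓ) (hD : 2 * ℓ ≤ D) (hDn : D < n)
    (h : G.adj s (s + (D : ℤ))) (hf : ∀ e : ℕ, ℓ ≤ e → e < D → ¬ G.adj s (s + (e : ℤ)))
    (hb : ∀ e : ℕ, ℓ ≤ e → e < D → ¬ G.adj (s + D - e) (s + (D : ℤ))) : False := by
  obtain ⟨a, ha1, ha2, ha3, ha4⟩ := exists_max (p := fun e => G.adj (s + D - e) (s + (D : ℤ)))
    (ℓ := ℓ) (by
      have := G.succ (s + D - 1)
      rw [sub_add_cancel] at this
      exact_mod_cast this) hℓ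
  have h1 : G.adj (s + n) (s + D - a + n) := by
    refine G.caZ (s + D) (s + n) (s + D - a + n) (by omega) (by omega) (by omega) ?_ ?_ ?_
    · rw [G.per', adj_comm]; exact h
    · rw [G.per', adj_comm]; exact ha3
    · intro t ht1 ht2 ht3
      obtain ⟨e, he⟩ := Int.eq_ofNat_of_zero_le (a := s + D + n - t) (by omega)
      have e1 : t = s + D - e + n := by
        have : (Int.ofNat e : ℤ) = (e : ℤ) := rfl
        omega
      rw [e1, G.per', adj_comm] at ht3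
      by_cases hel : e < ℓ
      · exact ha4 e (by omega) hel ht3
      · exact hb e (by omega) (by omega) ht3
  rw [G.per', G.per] at h1
  have h2 := hf (D - a) (by omega) (by omega)
  apply h2
  rw [show s + ((D - a : ℕ) : ℤ) = s + D - a by push_cast [Nat.cast_sub (show a ≤ D by omega)]; ring]
  exact h1

end H539
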