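import Pool.Agent.H539.VG.Defs

/-!
# The dominated ear lemma and regular visibility structures
-/

namespace H539

namespace TA

/-! ### integer intervals -/

lemma exists_last {P : ℤ → Prop} {a b : ℤ} (h : ∃ x, a < x ∧ x < b ∧ P x) :
    ∃ x, a < x ∧ x < b ∧ P x ∧ ∀ t, x < t → t < b → ¬ P t := by
  obtain ⟨x, hx, hmax⟩ := Int.exists_greatest_of_bdd (P := fun x => a < x ∧ x < b ∧ P x)
    ⟨b, fun z hz => hz.2.1.le⟩ h
  refine ⟨x, hx.1, hx.2.1, hx.2.2, fun t h1 h2 h3 => ?_⟩
  have := hmax t ⟨by omega, h2, h3⟩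
  omega

lemma exists_first {P : ℤ → Prop} {a b : ℤ} (h : ∃ x, a < x ∧ x < b ∧ P x) :
    ∃ x, a < x ∧ x < b ∧ P x ∧ ∀ t, a < t → t < x → ¬ P t := by
  obtain ⟨x, hx, hmin⟩ := Int.exists_least_of_bdd (P := fun x => a < x ∧ x < b ∧ P x)
    ⟨a, fun z hz => hz.1.le⟩ h
  refine ⟨x, hx.1, hx.2.1, hx.2.2, fun t h1 h2 h3 => ?_⟩
  have := hmin t ⟨h1, by omega, h3⟩
  omega

lemma exists_step {P : ℤ → Prop} {a b : ℤ} (hab : a < b) (ha : P a) (hb : ¬ P b) :
    ∃ c, P c ∧ ¬ P (c + 1) := by
  by_contra hcon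
  push Not at hcon
  have : ∀ k : ℕ, P (a + k) := by
    intro k
    induction k with
    | zero => simpa using ha
    | succ k ih =>
      have := hcon _ ih
      push_cast
      rw [← add_assoc]
      exact this
  have h := this (b - a).toNat
  apply hb
  have e : a + ((b - a).toNat : ℤ) = b := by omega
  rwa [e] at h

variable {n : ℕ}

lemma per' (G : VG n) (s t : ℤ) : G.adj s (t + n) ↔ G.adj s t := by
  constructor
  · intro h
    exact G.symm _ _ ((G.per t s).1 (G.symm _ _ h))
  · intro h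
    exact G.symm _ _ ((G.per t s).2 (G.symm _ _ h))

lemma per_nat (G : VG n) (s t : ℤ) (k : ℕ) : G.adj s (t + n * k) ↔ G.adj s t := by
  induction k with
  | zero => simp
  | succ k ih =>
    have e : t + n * ((k + 1 : ℕ) : ℤ) = (t + n * k) + n := by push_cast; ring
    rw [e, per', ih]

lemma per_int (G : VG n) (s t : ℤ) (k : ℤ) : G.adj s (t + n * k) ↔ G.adj s t := by
  rcases le_total 0 k with h | h
  · obtain ⟨m, rfl⟩ := Int.eq_ofNat_of_zero_le h
    exact per_nat G s t m
  · obtain ⟨m, hm⟩ := Int.eq_ofNat_of_zero_le (a := -k) (by omega)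
    have e : k = -(m : ℤ) := by omega
    subst e
    have := per_nat G s (t + n * (-(m : ℤ))) m
    rw [← this]
    have e2 : t + n * (-(m : ℤ)) + n * m = t := by ring
    rw [e2]

lemma adj_congr (G : VG n) {s t t' : ℤ} (h : (n : ℤ) ∣ t' - t) : G.adj s t' ↔ G.adj s t := by
  obtain ⟨k, hk⟩ := h
  have e : t' = t + n * k := by omega
  rw [e, per_int]

lemma sh (G : VG n) (s t : ℤ) (k : ℕ) : G.adj (s + n * k) (t + n * k) ↔ G.adj s t := by
  rw [per_nat]
  constructor
  · intro h
    exact G.symm _ _ ((per_nat G t s k).1 (G.symm _ _ h))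
  · intro h
    exact G.symm _ _ ((per_nat G t s k).2 (G.symm _ _ h))

lemma exists_shift (hn : 1 ≤ n) (v : ℤ) : ∃ k : ℕ, 0 ≤ v + n * k := by
  refine ⟨v.natAbs, ?_⟩
  have h1 : (v.natAbs : ℤ) = |v| := Int.natCast_natAbs v
  have h2 := neg_abs_le v
  have h3 : (1 : ℤ) ≤ n := by exact_mod_cast hn
  have h4 := abs_nonneg v
  rw [h1]
  nlinarith

lemma caZ (hn : 1 ≤ n) (G : VG n) (v x y : ℤ) (h1 : v < x) (h2 : x < y) (h3 : y < v + n)
    (hx : G.adj v x) (hy : G.adj v y) (hno : ∀ t, x < t → t < y → ¬ G.adj v t) : G.adj x y := by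
  obtain ⟨k, hk⟩ := exists_shift hn v
  obtain ⟨v', hv'⟩ := Int.eq_ofNat_of_zero_le hk
  obtain ⟨x', hx'⟩ := Int.eq_ofNat_of_zero_le (a := x + n * k) (by omega)
  obtain ⟨y', hy'⟩ := Int.eq_ofNat_of_zero_le (a := y + n * k) (by omega)
  rw [← sh G v x k, hv', hx'] at hx
  rw [← sh G v y k, hv', hy'] at hy
  have := G.ca v' x' y' (by omega) (by omega) (by omega) hx hy (by
    intro t ht1 ht2 ht3
    apply hno (t - n * k) (by omega) (by omega)
    rw [← sh G v _ k, hv', sub_add_cancel]
    exact ht3)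
  rw [← sh G x y k, hx', hy']
  exact this

lemma psZ (hn : 1 ≤ n) (G : VG n) (v x y : ℤ) (h1 : v < x) (h2 : x < y) (h3 : y < v + n)
    (hx : G.adj v x) (hy : G.adj v y) (hno : ∀ t, x < t → t < y → ¬ G.adj v t) :
    ∃ w, x ≤ w ∧ w < y ∧ (∀ p q, v ≤ p → p < x → x < q → q ≤ w → ¬ G.adj p q) ∧
      (∀ p q, w < p → p < y → y < q → q ≤ v + n → ¬ G.adj p q) := by
  obtain ⟨k, hk⟩ := exists_shift hn v
  obtain ⟨v', hv'⟩ := Int.eq_ofNat_of_zero_le hk
  obtain ⟨x', hx'⟩ := Int.eq_ofNat_of_zero_le (a := x + n * k) (by omega)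
  obtain ⟨y', hy'⟩ := Int.eq_ofNat_of_zero_le (a := y + n * k) (by omega)
  rw [← sh G v x k, hv', hx'] at hx
  rw [← sh G v y k, hv', hy'] at hy
  obtain ⟨w, hw1, hw2, hw3, hw4⟩ := G.ps v' x' y' (by omega) (by omega) (by omega) hx hy (by
    intro t ht1 ht2 ht3
    apply hno (t - n * k) (by omega) (by omega)
    rw [← sh G v _ k, hv', sub_add_cancel]
    exact ht3)
  refine ⟨w - n * k, by omega, by omega, ?_, ?_⟩
  · intro p q hp1 hp2 hq1 hq2 hpq
    obtain ⟨p', hp'⟩ := Int.eq_ofNat_of_zero_le (a := p + n * k) (by omega)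
    obtain ⟨q', hq'⟩ := Int.eq_ofNat_of_zero_le (a := q + n * k) (by omega)
    rw [← sh G p q k, hp', hq'] at hpq
    exact hw3 p' q' (by omega) (by omega) (by omega) (by omega) hpq
  · intro p q hp1 hp2 hq1 hq2 hpq
    obtain ⟨p', hp'⟩ := Int.eq_ofNat_of_zero_le (a := p + n * k) (by omega)
    obtain ⟨q', hq'⟩ := Int.eq_ofNat_of_zero_le (a := q + n * k) (by omega)
    rw [← sh G p q k, hp', hq'] at hpq
    exact hw4 p' q' (by omega) (by omega) (by omega) (by omega) hpq

/-- ears -/
def Ear (G : VG n) (x : ℤ) : Prop := G.adj (x - 1) (x + 1)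

/-- a chord has an ear strictly between its ends -/
lemma B1 (G : VG n) : ∀ (m : ℕ) (s t : ℤ), (t - s).toNat = m → G.adj s t → s + 2 ≤ t → t < s + n →
    ∃ x, s < x ∧ x < t ∧ Ear G x := by
  intro m
  induction m using Nat.strong_induction_on with
  | _ m ih =>
    intro s t hm hst h2 hn
    by_cases ht : t = s + 2
    · refine ⟨s + 1, by omega, by omega, ?_⟩
      unfold Ear
      have e1 : s + 1 - 1 = s := by ring
      have e2 : s + 1 + 1 = t := by omega
      rw [e1, e2]
      exact hst
    · obtain ⟨u, hu1, hu2, hu3, hu4⟩ := G.c1 s t hst h2 hn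
      by_cases hu : s + 2 ≤ u
      · obtain ⟨x, hx1, hx2, hx3⟩ := ih (u - s).toNat (by omega) s u rfl hu3 hu (by omega)
        exact ⟨x, hx1, by omega, hx3⟩
      · obtain ⟨x, hx1, hx2, hx3⟩ := ih (t - u).toNat (by omega) u t rfl hu4 (by omega) (by omega)
        exact ⟨x, by omega, hx2, hx3⟩

lemma B1' (G : VG n) {s t : ℤ} (hst : G.adj s t) (h : s < t) (hn : t < s + n)
    (hne : ∀ x, s < x → x < t → ¬ Ear G x) : t = s + 1 := by
  by_contra hcon
  obtain ⟨x, h1, h2, h3⟩ := B1 G _ s t rfl hst (by omega) hn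
  exact hne x h1 h2 h3

/-- mirror image -/
def mir (hn : 1 ≤ n) (G : VG n) : VG n where
  adj s t := G.adj (-s) (-t)
  symm s t h := G.symm _ _ h
  per s t := by
    have := G.per (-s - n) (-t)
    have e1 : -s - (n : ℤ) + n = -s := by ring
    have e2 : -(s + (n : ℤ)) = -s - n := by ring
    rw [e1] at this
    rw [e2]
    exact this.symm
  irr s := G.irr _
  succ s := by
    have := G.succ (-s - 1)
    have e1 : -s - 1 + 1 = -s := by ring
    have e2 : -(s + 1) = -s - 1 := by ring
    rw [e1] at this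
    rw [e2]
    exact G.symm _ _ this
  c1 s t hst h2 hn := by
    obtain ⟨u, hu1, hu2, hu3, hu4⟩ := G.c1 (-t) (-s) (G.symm _ _ hst) (by omega) (by omega)
    refine ⟨-u, by omega, by omega, ?_, ?_⟩
    · rw [neg_neg]; exact G.symm _ _ hu4
    · rw [neg_neg]; exact G.symm _ _ hu3
  ca v x y h1 h2 h3 hx hy hno := by
    have hp : ∀ t, G.adj (-(v : ℤ) - n) t ↔ G.adj (-(v : ℤ)) t := by
      intro t
      have := G.per (-(v : ℤ) - n) t
      have e1 : -(v : ℤ) - (n : ℤ) + n = -v := by ring
      rw [e1] at this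
      exact this.symm
    have := caZ hn G (-v - n) (-y) (-x) (by omega) (by omega) (by omega) ((hp _).2 hy) ((hp _).2 hx)
      (fun t ht1 ht2 ht3 => hno (-t).toNat (by omega) (by omega) (by
        have e2 : (((-t).toNat : ℕ) : ℤ) = -t := by omega
        rw [e2, neg_neg]
        exact (hp _).1 ht3))
    exact G.symm _ _ this
  ps v x y h1 h2 h3 hx hy hno := by
    have hp : ∀ t, G.adj (-(v : ℤ) - n) t ↔ G.adj (-(v : ℤ)) t := by
      intro t
      have := G.per (-(v : ℤ) - n) t
      have e1 : -(v : ℤ) - (n : ℤ) + n = -v := by ring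
      rw [e1] at this
      exact this.symm
    obtain ⟨w, hw1, hw2, hw3, hw4⟩ := psZ hn G (-v - n) (-y) (-x) (by omega) (by omega) (by omega)
      ((hp _).2 hy) ((hp _).2 hx)
      (fun t ht1 ht2 ht3 => hno (-t).toNat (by omega) (by omega) (by
        have e2 : (((-t).toNat : ℕ) : ℤ) = -t := by omega
        rw [e2, neg_neg]
        exact (hp _).1 ht3))
    refine ⟨(-w - 1).toNat, by omega, by omega, ?_, ?_⟩
    · intro p q hp1 hp2 hq1 hq2 hpq
      exact hw4 (-q) (-p) (by omega) (by omega) (by omega) (by omega) (G.symm _ _ hpq)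
    · intro p q hp1 hp2 hq1 hq2 hpq
      exact hw3 (-q) (-p) (by omega) (by omega) (by omega) (by omega) (G.symm _ _ hpq)

lemma mir_adj (hn : 1 ≤ n) (G : VG n) (s t : ℤ) : (mir hn G).adj s t ↔ G.adj (-s) (-t) := Iff.rfl

/-- a dominated pair -/
def Dom (G : VG n) : Prop :=
  ∃ b e : ℤ, (e = b + 1 ∨ e = b - 1) ∧ ¬ G.adj (b - 1) (b + 1) ∧ G.adj (e - 1) (e + 1) ∧
    ∀ z, G.adj e z → G.adj b z ∨ ((n : ℤ) ∣ z - b)

lemma Dom_mir (hn : 1 ≤ n) (G : VG n) (h : Dom (mir hn G)) : Dom G := by
  obtain ⟨b, e, h1, h2, h3, h4⟩ := h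
  refine ⟨-b, -e, by omega, ?_, ?_, ?_⟩
  · intro h5
    apply h2
    rw [mir_adj]
    have e1 : -(b - 1) = -b + 1 := by ring
    have e2 : -(b + 1) = -b - 1 := by ring
    rw [e1, e2]
    exact G.symm _ _ h5
  · rw [mir_adj] at h3
    have e1 : -(e - 1) = -e + 1 := by ring
    have e2 : -(e + 1) = -e - 1 := by ring
    rw [e1, e2] at h3
    exact G.symm _ _ h3
  · intro z hz
    have h5 := h4 (-z) (by rw [mir_adj, neg_neg]; exact hz)
    rw [mir_adj, neg_neg] at h5
    rcases h5 with h5 | h5
    · exact Or.inl h5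
    · right
      obtain ⟨k, hk⟩ := h5
      exact ⟨-k, by rw [mul_neg]; omega⟩

/-- states of the descent -/
structure State (G : VG n) (v z c : ℤ) : Prop where
  h1 : v + 1 < z
  h2 : z < c
  h3 : c < v + n
  a1 : G.adj (v + 1) z
  a2 : G.adj (v + 1) c
  a3 : G.adj v c
  E : ∀ p q, z ≤ p → p < c → c < q → q ≤ v + n → ¬ G.adj p q

/-- representative in a window -/
lemma exists_rep (hn : 3 ≤ n) (s y0 : ℤ) : ∃ y, s ≤ y ∧ y < s + n ∧ (n : ℤ) ∣ y - y0 := by
  refine ⟨s + (y0 - s) % n, ?_, ?_, ?_⟩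
  · have := Int.emod_nonneg (y0 - s) (show (n : ℤ) ≠ 0 by omega)
    omega
  · have := Int.emod_lt_of_pos (y0 - s) (show (0 : ℤ) < n by omega)
    omega
  · have h1 := Int.emod_add_mul_ediv (y0 - s) n
    exact ⟨-((y0 - s) / n), by rw [mul_neg]; omega⟩

lemma descent (hn : 3 ≤ n) : ∀ (m : ℕ) (G : VG n) (v z c : ℤ), (c - v).toNat = m → State G v z c →
    Dom G := by
  intro m
  induction m using Nat.strong_induction_on with
  | _ m ih =>
    intro G v z c hm st
    obtain ⟨h1, h2, h3, a1, a2, a3, E⟩ := st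
    -- `c` is a non-ear
    have hc : ¬ Ear G c := E (c - 1) (c + 1) (by omega) (by omega) (by omega) (by omega)
    -- the last ear before `c`
    obtain ⟨e, he1, he2, he3, he4⟩ := exists_last (P := Ear G)
      (B1 G _ (v + 1) c rfl a2 (by omega) (by omega))
    have hne : ∀ x, e < x → x ≤ c → ¬ Ear G x := by
      intro x hx1 hx2
      rcases eq_or_lt_of_le hx2 with h | h
      · rw [h]; exact hc
      · exact he4 x hx1 h
    by_cases hdom : ∀ z, G.adj e z → G.adj (e + 1) z ∨ ((n : ℤ) ∣ z - (e + 1))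
    · refine ⟨e + 1, e, by omega, ?_, he3, hdom⟩
      exact hne (e + 1) (by omega) (by omega)
    · push Not at hdom
      obtain ⟨y0, hy1, hy2, hy3⟩ := hdom
      obtain ⟨y, hya, hyb, hyc⟩ := exists_rep hn e y0
      have hey : G.adj e y := (adj_congr G hyc).2 hy1
      have hcy : ¬ G.adj (e + 1) y := fun h => hy2 ((adj_congr G hyc).1 h)
      have hye : y ≠ e := by
        intro h
        rw [h] at hey
        exact G.irr e hey
      have hye1 : y ≠ e + 1 := by
        intro h
        apply hy3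
        obtain ⟨k, hk⟩ := hyc
        exact ⟨-k, by rw [mul_neg]; omega⟩
      -- (3)
      have s3 : c < y := by
        by_contra hcon
        have := B1' G hey (by omega) (by omega) (fun x hx1 hx2 => hne x hx1 (by omega))
        exact hye1 this
      -- (4)
      have s4 : ∀ a, c < a → a ≤ v + n → ¬ G.adj e a := by
        intro a ha1 ha2 ha3
        by_cases hez : z ≤ e
        · exact E e a hez he2 ha1 ha2 ha3
        · have hind : ∀ k : ℕ, e + k ≤ z → ∃ a, c < a ∧ a < v + n + 1 ∧ G.adj (e + k) a := by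
            intro k
            induction k with
            | zero =>
              intro _
              refine ⟨a, ha1, by omega, ?_⟩
              simpa using ha3
            | succ k ihk =>
              intro hk
              push_cast at hk
              obtain ⟨a, hb1, hb2, hb3, hb4⟩ := exists_first (ihk (by omega))
              obtain ⟨u, hu1, hu2, hu3, hu4⟩ := G.c1 (e + k) a hb3 (by omega) (by omega)
              have huc : u ≤ c := by
                by_contra hcon
                exact hb4 u (by omega) hu2 hu3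
              have hu5 := B1' G hu3 hu1 (by omega) (fun x hx1 hx2 => hne x (by omega) (by omega))
              refine ⟨a, hb1, hb2, ?_⟩
              push_cast
              rw [← add_assoc, ← hu5]
              exact hu4
          obtain ⟨a, hb1, hb2, hb3⟩ := hind (z - e).toNat (by omega)
          have e1 : e + ((z - e).toNat : ℤ) = z := by omega
          rw [e1] at hb3
          exact E z a le_rfl h2 hb1 (by omega) hb3
      -- (5)
      have s5 : y ≠ v + 1 + n := by
        intro h
        obtain ⟨u, hu1, hu2, hu3, hu4⟩ := G.c1 e y hey (by omega) (by omega)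
        have huc : u ≤ c := by
          by_contra hcon
          exact s4 u (by omega) (by omega) hu3
        have hu5 := B1' G hu3 hu1 (by omega) (fun x hx1 hx2 => hne x hx1 (by omega))
        rw [hu5] at hu4
        exact hcy hu4
      -- (6)
      have s6 : v + 1 + n < y := by
        by_contra hcon
        exact s4 y s3 (by omega) hey
      have hce : G.adj (e + 1) (e - 1 + n) := by
        rw [per']
        exact G.symm _ _ he3
      have s6' : y ≠ e - 1 + n := by
        intro h
        rw [h] at hcy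
        exact hcy hce
      -- (7)
      obtain ⟨d, hd1, hd2, hd3, hd4⟩ := exists_last (P := fun x => G.adj (e + 1) x) (a := e + 1) (b := y)
        ⟨e + 1 + 1, by omega, by omega, G.succ _⟩
      obtain ⟨y', hy'1, hy'2, hy'3, hy'4⟩ := exists_first (P := fun x => G.adj (e + 1) x) (a := y)
        (b := e + n) ⟨e - 1 + n, by omega, by omega, hce⟩
      obtain ⟨w, hw1, hw2, hw3, hw4⟩ := psZ (by omega) G (e + 1) d y' hd1 (by omega) (by omega) hd3 hy'3
        (fun t ht1 ht2 ht3 => by
          rcases lt_trichotomy t y with h | h | h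
          · exact hd4 t ht1 h ht3
          · rw [h] at ht3; exact hcy ht3
          · exact hy'4 t h ht2 ht3)
      have hyw : y ≤ w := by
        by_contra hcon
        apply hw4 y (e + n) (by omega) hy'1 (by omega) (by omega)
        rw [per']
        exact G.symm _ _ hey
      have hno : ∀ p q, e + 1 ≤ p → p < d → d < q → q ≤ y → ¬ G.adj p q :=
        fun p q hp1 hp2 hq1 hq2 => hw3 p q hp1 hp2 hq1 (by omega)
      have hed : G.adj e d := by
        obtain ⟨z1, hz1, hz2, hz3, hz4⟩ := exists_first (P := fun x => G.adj e x) (a := d) (b := y + 1)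
          ⟨y, hd2, by omega, hey⟩
        obtain ⟨d', hd'1, hd'2, hd'3, hd'4⟩ := exists_last (P := fun x => G.adj e x) (a := e) (b := z1)
          ⟨e + 1, by omega, by omega, G.succ _⟩
        have hca := caZ (by omega) G e d' z1 hd'1 hd'2 (by omega) hd'3 hz3 hd'4
        have h5 : ¬ d' < d := fun h => hno d' z1 (by omega) h hz1 (by omega) hca
        have h6 : ¬ d < d' := fun h => hz4 d' h hd'2 hd'3
        have h7 : d' = d := by omega
        rw [← h7]
        exact hd'3
      have hdcs : d ≠ e + 1 + 1 := by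
        intro h
        apply hne (e + 1) (by omega) (by omega)
        unfold Ear
        have e1 : e + 1 - 1 = e := by ring
        rw [e1, ← h]
        exact hed
      -- (8)
      have s8 : v + n < d := by
        by_contra hcon
        rcases le_or_gt d c with h | h
        · have := B1' G hed (by omega) (by omega) (fun x hx1 hx2 => hne x hx1 (by omega))
          omega
        · exact s4 d h (by omega) hed
      -- (9)
      have hn1 : 1 ≤ n := by omega
      apply Dom_mir hn1
      refine ih (-(d - n) - (-(e + 1))).toNat (by omega) (mir hn1 G) (-(e + 1)) (-(y - n)) (-(d - n)) rfl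
        ⟨by omega, by omega, by omega, ?_, ?_, ?_, ?_⟩
      · rw [mir_adj]
        have e1 : -(-(e + 1) + 1) = e := by ring
        rw [e1, neg_neg, ← per']
        have e2 : y - (n : ℤ) + n = y := by ring
        rw [e2]
        exact hey
      · rw [mir_adj]
        have e1 : -(-(e + 1) + 1) = e := by ring
        rw [e1, neg_neg, ← per']
        have e2 : d - (n : ℤ) + n = d := by ring
        rw [e2]
        exact hed
      · rw [mir_adj, neg_neg, neg_neg, ← per']
        have e2 : d - (n : ℤ) + n = d := by ring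
        rw [e2]
        exact hd3
      · intro p q hp1 hp2 hq1 hq2 hpq
        rw [mir_adj, ← per'] at hpq
        have hpq2 := (G.per (-p) (-q + n)).2 hpq
        exact hno (-q + n) (-p + n) (by omega) (by omega) (by omega) (by omega) (G.symm _ _ hpq2)

/-- start of the descent -/
lemma start (hn : 3 ≤ n) (G : VG n) (b : ℤ) (hb : ¬ Ear G b) (he : Ear G (b + 1)) : Dom G := by
  have he' : G.adj b (b + 2) := by
    unfold Ear at he
    have e1 : b + 1 - 1 = b := by ring
    have e2 : b + 1 + 1 = b + 2 := by ring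
    rw [e1, e2] at he
    exact he
  by_cases hdom : ∀ z, G.adj (b + 1) z → G.adj b z ∨ ((n : ℤ) ∣ z - b)
  · exact ⟨b, b + 1, Or.inl rfl, hb, he, hdom⟩
  · push Not at hdom
    obtain ⟨y0, hy1, hy2, hy3⟩ := hdom
    obtain ⟨y, hya, hyb, hyc⟩ := exists_rep hn b y0
    have hey : G.adj (b + 1) y := (adj_congr G hyc).2 hy1
    have hby : ¬ G.adj b y := fun h => hy2 ((adj_congr G hyc).1 h)
    have hy4 : y ≠ b := by
      intro h
      apply hy3
      obtain ⟨k, hk⟩ := hyc
      exact ⟨-k, by rw [mul_neg]; omega⟩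
    have hy5 : y ≠ b + 1 := by
      intro h
      rw [h] at hey
      exact G.irr _ hey
    have hy6 : y ≠ b + 2 := by
      intro h
      rw [h] at hby
      exact hby he'
    have hlast : G.adj b (b - 1 + n) := by
      rw [per']
      have := G.succ (b - 1)
      rw [sub_add_cancel] at this
      exact G.symm _ _ this
    have hy7 : y ≠ b - 1 + n := by
      intro h
      rw [h] at hby
      exact hby hlast
    obtain ⟨x, hx1, hx2, hx3, hx4⟩ := exists_last (P := fun x => G.adj b x) (a := b + 1) (b := y)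
      ⟨b + 2, by omega, by omega, he'⟩
    obtain ⟨c, hc1, hc2, hc3, hc4⟩ := exists_first (P := fun x => G.adj b x) (a := y) (b := b + n)
      ⟨b - 1 + n, by omega, by omega, hlast⟩
    obtain ⟨w, hw1, hw2, hw3, hw4⟩ := psZ (by omega) G b x c (by omega) (by omega) (by omega) hx3 hc3
      (fun t ht1 ht2 ht3 => by
        rcases lt_trichotomy t y with h | h | h
        · exact hx4 t ht1 h ht3
        · rw [h] at ht3; exact hby ht3
        · exact hc4 t h ht2 ht3)
    have hwy : w < y := by
      by_contra hcon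
      exact hw3 (b + 1) y (by omega) hx1 hx2 (by omega) hey
    obtain ⟨z0, hz1, hz2, hz3, hz4⟩ := exists_last (P := fun x => G.adj (b + 1) x) (a := b + 1) (b := c)
      ⟨y, by omega, hc1, hey⟩
    have hzy : y ≤ z0 := by
      by_contra hcon
      exact hz4 y (by omega) hc1 hey
    have hbn : G.adj (b + 1) (b + n) := by
      rw [per']
      exact G.symm _ _ (G.succ b)
    obtain ⟨c', hc'1, hc'2, hc'3, hc'4⟩ := exists_first (P := fun x => G.adj (b + 1) x) (a := z0)
      (b := b + n + 1) ⟨b + n, by omega, by omega, hbn⟩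
    have hca := caZ (by omega) G (b + 1) z0 c' hz1 hc'1 (by omega) hz3 hc'3 hc'4
    have hcc : c' = c := by
      by_contra hcon
      rcases lt_or_gt_of_ne hcon with h | h
      · exact hz4 c' hc'1 h hc'3
      · exact hw4 z0 c' (by omega) hz2 h (by omega) hca
    rw [hcc] at hc'3
    exact descent hn _ G b z0 c rfl ⟨hz1, hz2, hc2, hz3, hc'3, hc3,
      fun p q hp1 hp2 hq1 hq2 => hw4 p q (by omega) hp2 hq1 hq2⟩

lemma ear_mir (hn : 1 ≤ n) (G : VG n) (x : ℤ) : Ear (mir hn G) x ↔ Ear G (-x) := by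
  unfold Ear
  rw [mir_adj]
  have e1 : -(x - 1) = -x + 1 := by ring
  have e2 : -(x + 1) = -x - 1 := by ring
  rw [e1, e2]
  exact ⟨G.symm _ _, G.symm _ _⟩

lemma exists_dom (hn : 3 ≤ n) (G : VG n) {s t : ℤ} (hst : s < t) (htn : t < s + n)
    (h : ¬ G.adj s t) : Dom G := by
  have hlast : G.adj s (s - 1 + n) := by
    rw [per']
    have := G.succ (s - 1)
    rw [sub_add_cancel] at this
    exact G.symm _ _ this
  have ht1 : t ≠ s + 1 := by
    intro h1
    rw [h1] at h
    exact h (G.succ s)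
  have ht2 : t ≠ s - 1 + n := by
    intro h1
    rw [h1] at h
    exact h hlast
  -- a non-ear
  have hnon : ∃ b, ¬ Ear G b := by
    obtain ⟨x, hx1, hx2, hx3, hx4⟩ := exists_last (P := fun x => G.adj s x) (a := s) (b := t)
      ⟨s + 1, by omega, by omega, G.succ _⟩
    obtain ⟨y, hy1, hy2, hy3, hy4⟩ := exists_first (P := fun x => G.adj s x) (a := t) (b := s + n)
      ⟨s - 1 + n, by omega, by omega, hlast⟩
    obtain ⟨w, hw1, hw2, hw3, hw4⟩ := psZ (by omega) G s x y hx1 (by omega) (by omega) hx3 hy3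
      (fun r hr1 hr2 hr3 => by
        rcases lt_trichotomy r t with h' | h' | h'
        · exact hx4 r hr1 h' hr3
        · rw [h'] at hr3; exact h hr3
        · exact hy4 r h' hr2 hr3)
    by_cases htw : t ≤ w
    · exact ⟨x, hw3 (x - 1) (x + 1) (by omega) (by omega) (by omega) (by omega)⟩
    · exact ⟨y, hw4 (y - 1) (y + 1) (by omega) (by omega) (by omega) (by omega)⟩
  -- an ear
  have hear : ∃ e, Ear G e := by
    have h1 : G.adj (s + 1) (s + n) := by
      rw [per']
      exact G.symm _ _ (G.succ s)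
    obtain ⟨x, _, _, hx⟩ := B1 G _ (s + 1) (s + n) rfl h1 (by omega) (by omega)
    exact ⟨x, hx⟩
  obtain ⟨b, hb⟩ := hnon
  obtain ⟨e, he⟩ := hear
  rcases lt_trichotomy b e with hbe | hbe | hbe
  · obtain ⟨c, hc1, hc2⟩ := exists_step (P := fun x => ¬ Ear G x) hbe hb (by simpa using he)
    exact start hn G c hc1 (by simpa using hc2)
  · rw [hbe] at hb
    exact absurd he hb
  · obtain ⟨c, hc1, hc2⟩ := exists_step (P := fun x => Ear G x) hbe he hb
    have hn1 : 1 ≤ n := by omega
    apply Dom_mir hn1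
    apply start hn (mir hn1 G) (-(c + 1))
    · rw [ear_mir, neg_neg]
      exact hc2
    · rw [ear_mir]
      have e1 : -(-(c + 1) + 1) = c := by ring
      rw [e1]
      exact hc1

end TA

/-- the dominated ear lemma -/
theorem exists_dominated {n : ℕ} (hn : 3 ≤ n) (G : VG n) {s t : ℤ} (hst : s < t) (htn : t < s + n)
    (h : ¬ G.adj s t) :
    ∃ b e : ℤ, (e = b + 1 ∨ e = b - 1) ∧ ¬ G.adj (b - 1) (b + 1) ∧ G.adj (e - 1) (e + 1) ∧
      ∀ z, G.adj e z → G.adj b z ∨ ((n : ℤ) ∣ z - b) :=
  TA.exists_dom hn G hst htn h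

namespace TA

open Classical in
lemma dg_range {n : ℕ} (G : VG n) (v : ℤ) :
    dg G.adj n v = ((Finset.range (n - 1)).filter (fun i : ℕ => G.adj v (v + 1 + (i : ℤ)))).card := by
  unfold dg nbrs
  rw [List.filter_map, List.length_map, Finset.card_def, Finset.filter_val]
  rfl

open Classical in
/-- the neighbours as residues -/
noncomputable def NB {n : ℕ} (G : VG n) (v : ℤ) : Finset ℤ :=
  (Finset.Ico (0 : ℤ) n).filter (fun r => G.adj v r)

lemma mod_dvd {n : ℕ} (a : ℤ) : (n : ℤ) ∣ a % n - a := by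
  have h1 := Int.emod_add_mul_ediv a n
  exact ⟨-(a / n), by rw [mul_neg]; omega⟩

lemma dg_eq {n : ℕ} (hn : 3 ≤ n) (G : VG n) (v : ℤ) : dg G.adj n v = (NB G v).card := by
  classical
  rw [dg_range]
  unfold NB
  have hn0 : (0 : ℤ) < n := by omega
  apply Finset.card_bij (fun (i : ℕ) _ => (v + 1 + (i : ℤ)) % n)
  · intro i hi
    rw [Finset.mem_filter, Finset.mem_range] at hi
    rw [Finset.mem_filter, Finset.mem_Ico]
    refine ⟨⟨Int.emod_nonneg _ hn0.ne', Int.emod_lt_of_pos _ hn0⟩, ?_⟩
    rw [adj_congr G (mod_dvd _)]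
    exact hi.2
  · intro i hi j hj hij
    rw [Finset.mem_filter, Finset.mem_range] at hi hj
    have h1 : (n : ℤ) ∣ (v + 1 + (i : ℤ)) - (v + 1 + (j : ℤ)) :=
      Int.ModEq.dvd (Int.ModEq.symm hij)
    have h2 : (v + 1 + (i : ℤ)) - (v + 1 + (j : ℤ)) = (i : ℤ) - j := by ring
    rw [h2] at h1
    have h3 : (i : ℤ) - j = 0 := by
      apply Int.eq_zero_of_abs_lt_dvd h1
      rw [abs_lt]
      constructor <;> omega
    omega
  · intro r hr
    rw [Finset.mem_filter, Finset.mem_Ico] at hr
    have h4 : (v + 1 + (r - v - 1) % n) % n = r := by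
      have h5 : (v + 1 + (r - v - 1) % n) % n = (v + 1 + (r - v - 1)) % n := by
        rw [Int.add_emod, Int.emod_emod_of_dvd _ (dvd_refl _), ← Int.add_emod]
      rw [h5]
      have h6 : v + 1 + (r - v - 1) = r := by ring
      rw [h6]
      exact Int.emod_eq_of_lt hr.1.1 hr.1.2
    have h7 := Int.emod_nonneg (r - v - 1) hn0.ne'
    have h8 := Int.emod_lt_of_pos (r - v - 1) hn0
    have h9 : (r - v - 1) % n ≠ (n : ℤ) - 1 := by
      intro h
      rw [h] at h4
      have h10 : v + 1 + ((n : ℤ) - 1) = v + n := by ring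
      rw [h10] at h4
      have h11 : (n : ℤ) ∣ r - v := by
        have h12 := mod_dvd (n := n) (v + n)
        rw [h4] at h12
        obtain ⟨k, hk⟩ := h12
        exact ⟨k + 1, by rw [mul_add]; omega⟩
      exact G.irr v ((adj_congr G h11).1 hr.2)
    have hcast : (((r - v - 1) % n).toNat : ℤ) = (r - v - 1) % n := Int.toNat_of_nonneg h7
    refine ⟨((r - v - 1) % n).toNat, ?_, ?_⟩
    · rw [Finset.mem_filter, Finset.mem_range]
      constructor
      · omega
      · rw [hcast]
        rw [← adj_congr G (mod_dvd _), h4]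
        exact hr.2
    · show (v + 1 + (((r - v - 1) % n).toNat : ℤ)) % n = r
      rw [hcast]
      exact h4

lemma dg_lt {n : ℕ} (hn : 3 ≤ n) (G : VG n) {b e f : ℤ} (hbe : G.adj b e) (hbf : G.adj b f)
    (hef : ¬ G.adj e f) (hne : ¬ (n : ℤ) ∣ e - f)
    (hsub : ∀ z, G.adj e z → G.adj b z ∨ ((n : ℤ) ∣ z - b)) : dg G.adj n e < dg G.adj n b := by
  classical
  rw [dg_eq hn, dg_eq hn]
  have hn0 : (0 : ℤ) < n := by omega
  have hmem : ∀ v z : ℤ, z % n ∈ NB G v ↔ G.adj v z := by
    intro v z
    unfold NB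
    rw [Finset.mem_filter, Finset.mem_Ico, adj_congr G (mod_dvd _)]
    exact ⟨fun h => h.2, fun h => ⟨⟨Int.emod_nonneg _ hn0.ne', Int.emod_lt_of_pos _ hn0⟩, h⟩⟩
  have h1 : insert (e % n) (insert (f % n) ((NB G e).erase (b % n))) ⊆ NB G b := by
    intro r hr
    rw [Finset.mem_insert, Finset.mem_insert, Finset.mem_erase] at hr
    rcases hr with rfl | rfl | ⟨hr1, hr2⟩
    · exact (hmem b e).2 hbe
    · exact (hmem b f).2 hbf
    · unfold NB at hr2
      rw [Finset.mem_filter, Finset.mem_Ico] at hr2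
      have hrm : r % n = r := Int.emod_eq_of_lt hr2.1.1 hr2.1.2
      rcases hsub r hr2.2 with h | h
      · rw [← hrm]
        exact (hmem b r).2 h
      · exfalso
        apply hr1
        rw [← hrm]
        exact Int.ModEq.symm ((Int.modEq_iff_dvd).2 h)
  have h2 : e % n ∉ insert (f % n) ((NB G e).erase (b % n)) := by
    rw [Finset.mem_insert, Finset.mem_erase]
    rintro (h | ⟨_, h⟩)
    · apply hne
      exact Int.ModEq.dvd (Int.ModEq.symm h)
    · exact G.irr e ((hmem e e).1 h)
  have h3 : f % n ∉ (NB G e).erase (b % n) := by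
    rw [Finset.mem_erase]
    rintro ⟨_, h⟩
    exact hef ((hmem e f).1 h)
  have h4 := Finset.card_le_card h1
  rw [Finset.card_insert_of_notMem h2, Finset.card_insert_of_notMem h3] at h4
  have h5 := Finset.pred_card_le_card_erase (s := NB G e) (a := b % n)
  omega

end TA

/-- if all vertices see the same number of vertices then all vertices see each other -/
theorem complete_of_regular {n : ℕ} (hn : 3 ≤ n) (G : VG n)
    (hreg : ∀ s t, dg G.adj n s = dg G.adj n t) : ∀ s t : ℤ, s < t → t < s + n → G.adj s t := by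
  intro s t hst htn
  by_contra hcon
  obtain ⟨b, e, hbe, hb, _, hsub⟩ := exists_dominated hn G hst htn hcon
  have hn' : ¬ (n : ℤ) ∣ 2 := by
    intro h
    have := Int.le_of_dvd (by norm_num) h
    omega
  have hpred : ∀ x, G.adj x (x - 1) := by
    intro x
    have := G.succ (x - 1)
    rw [sub_add_cancel] at this
    exact G.symm _ _ this
  rcases hbe with rfl | rfl
  · have h := TA.dg_lt hn G (b := b) (e := b + 1) (f := b - 1) (G.succ b) (hpred b)
      (fun h => hb (G.symm _ _ h)) (by
        have e1 : b + 1 - (b - 1) = 2 := by ring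
        rw [e1]; exact hn') hsub
    have := hreg (b + 1) b
    omega
  · have h := TA.dg_lt hn G (b := b) (e := b - 1) (f := b + 1) (hpred b) (G.succ b) hb (by
        have e1 : b - 1 - (b + 1) = -2 := by ring
        rw [e1, Int.dvd_neg]; exact hn') hsub
    have := hreg (b - 1) b
    omega

end H539
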