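import Pool.Agent.H539.VG.Defs

/-!
Exploring agent, abstract part: a finite automaton with outputs; a strategy which learns the present
state up to indistinguishability.
-/

set_option autoImplicit false

namespace H539

open Classical

section machine

variable {Y : Type} (deg : Y → ℕ) (step : Y → ℕ → Y)

/-- indistinguishable states -/
def MBis (a b : Y) : Prop := ∀ l : List ℕ, deg (l.foldl step a) = deg (l.foldl step b)

/-- state and observations after `t` steps -/
def mrun (S : Strategy) (y : Y) : ℕ → Y × List (ℕ × ℕ)
  | 0 => (y, [])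
  | t + 1 =>
    let q := mrun S y t
    let d := deg q.1
    let i := S q.2 d % d
    (step q.1 i, q.2 ++ [(d, i)])

lemma mrun_succ (S : Strategy) (y : Y) (t : ℕ) :
    mrun deg step S y (t + 1) =
      (step (mrun deg step S y t).1
        (S (mrun deg step S y t).2 (deg (mrun deg step S y t).1) % deg (mrun deg step S y t).1),
       (mrun deg step S y t).2 ++ [(deg (mrun deg step S y t).1,
        S (mrun deg step S y t).2 (deg (mrun deg step S y t).1) %
          deg (mrun deg step S y t).1)]) := rfl

/-- `l` distinguishes two members of `D` -/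
def Dl (D : Finset Y) (l : List ℕ) : Prop :=
  ∃ a ∈ D, ∃ b ∈ D, deg (l.foldl step a) ≠ deg (l.foldl step b)

lemma exists_min (D : Finset Y) (h : ∃ l, Dl deg step D l) :
    ∃ l, Dl deg step D l ∧ ∀ l', Dl deg step D l' → l.length ≤ l'.length := by
  have h1 : ∃ m, ∃ l, Dl deg step D l ∧ l.length = m := by
    obtain ⟨l, hl⟩ := h
    exact ⟨_, l, hl, rfl⟩
  obtain ⟨l, hl, hm⟩ := Nat.find_spec h1
  refine ⟨l, hl, fun l' hl' => ?_⟩
  rw [hm]
  exact Nat.find_min' h1 ⟨l', hl', rfl⟩

/-- a shortest distinguishing list -/
noncomputable def ls (D : Finset Y) : List ℕ :=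
  if h : ∃ l, Dl deg step D l then (exists_min deg step D h).choose else []

lemma ls_spec {D : Finset Y} (h : ∃ l, Dl deg step D l) : Dl deg step D (ls deg step D) := by
  unfold ls
  rw [dif_pos h]
  exact (exists_min deg step D h).choose_spec.1

lemma ls_min {D : Finset Y} {l : List ℕ} (h : Dl deg step D l) :
    (ls deg step D).length ≤ l.length := by
  have h' : ∃ l, Dl deg step D l := ⟨l, h⟩
  unfold ls
  rw [dif_pos h']
  exact (exists_min deg step D h').choose_spec.2 l h

lemma ls_cons (hst : ∀ y i, deg y ≤ i → step y i = y) {D : Finset Y} {d : ℕ}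
    (hd : ∀ y ∈ D, deg y = d) (h : ∃ l, Dl deg step D l) :
    ∃ i l', ls deg step D = i :: l' ∧ i < d := by
  obtain ⟨a, ha, b, hb, hab⟩ := ls_spec deg step h
  rcases hl : ls deg step D with _ | ⟨i, l'⟩
  · rw [hl] at hab
    exact absurd (by simp [hd a ha, hd b hb]) hab
  · refine ⟨i, l', rfl, ?_⟩
    by_contra hi
    push Not at hi
    rw [hl] at hab
    simp only [List.foldl_cons] at hab
    rw [hst a i (by rw [hd a ha]; exact hi), hst b i (by rw [hd b hb]; exact hi)] at hab
    have := ls_min deg step (l := l') ⟨a, ha, b, hb, hab⟩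
    rw [hl] at this
    simp at this

/-- the potential -/
noncomputable def pot (D : Finset Y) : ℕ ×ₗ ℕ := toLex (D.card, (ls deg step D).length)

lemma pot_lt (hst : ∀ y i, deg y ≤ i → step y i = y) {D : Finset Y} {d : ℕ}
    (hd : ∀ y ∈ D, deg y = d) (h : ∃ l, Dl deg step D l) (d' : ℕ) :
    pot deg step ((D.image fun y => step y ((ls deg step D).headD 0)).filter
      fun y => deg y = d') < pot deg step D := by
  obtain ⟨i, l', hl, hi⟩ := ls_cons deg step hst hd h
  have hh : (ls deg step D).headD 0 = i := by rw [hl]; rfl
  rw [hh]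
  set E := D.image fun y => step y i with hE
  set D' := E.filter fun y => deg y = d' with hD'
  have h1 : D'.card ≤ E.card := Finset.card_filter_le _ _
  have h2 : E.card ≤ D.card := Finset.card_image_le
  unfold pot
  rw [Prod.Lex.toLex_lt_toLex]
  rcases lt_or_eq_of_le (h1.trans h2) with h3 | h3
  · exact Or.inl h3
  · refine Or.inr ⟨h3, ?_⟩
    have h4 : D' = E := Finset.eq_of_subset_of_card_le (Finset.filter_subset _ _) (by omega)
    obtain ⟨a, ha, b, hb, hab⟩ := ls_spec deg step h
    rw [hl] at hab
    simp only [List.foldl_cons] at hab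
    have h5 : Dl deg step D' l' := by
      rw [h4]
      exact ⟨step a i, Finset.mem_image_of_mem _ ha, step b i, Finset.mem_image_of_mem _ hb, hab⟩
    have h6 := ls_min deg step h5
    have h7 : (ls deg step D).length = l'.length + 1 := by rw [hl]; rfl
    show (ls deg step D').length < (ls deg step D).length
    omega

variable [Fintype Y]

/-- the states consistent with a list of observations -/
noncomputable def cs (h : List (ℕ × ℕ)) : Finset Y :=
  h.foldl (fun C p => (C.filter fun y => deg y = p.1).image fun y => step y p.2) Finset.univ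

lemma cs_append (h : List (ℕ × ℕ)) (p : ℕ × ℕ) : cs deg step (h ++ [p]) =
    ((cs deg step h).filter fun y => deg y = p.1).image fun y => step y p.2 := by
  unfold cs
  rw [List.foldl_append]
  rfl

lemma mem_cs (S : Strategy) (y : Y) (t : ℕ) :
    (mrun deg step S y t).1 ∈ cs deg step (mrun deg step S y t).2 := by
  induction t with
  | zero => simp [mrun, cs]
  | succ t ih =>
    rw [mrun_succ]
    simp only
    rw [cs_append]
    exact Finset.mem_image_of_mem _ (Finset.mem_filter.2 ⟨ih, rfl⟩)

/-- the strategy -/
noncomputable def strat : Strategy := fun h d =>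
  (ls deg step ((cs deg step h).filter fun y => deg y = d)).headD 0

theorem machine_strategy (hst : ∀ y i, deg y ≤ i → step y i = y) :
    ∃ S : Strategy, ∀ y : Y, ∃ t : ℕ, ∀ y' : Y,
      (mrun deg step S y t).2 = (mrun deg step S y' t).2 →
      MBis deg step (mrun deg step S y t).1 (mrun deg step S y' t).1 := by
  refine ⟨strat deg step, fun y => ?_⟩
  set q : ℕ → Y × List (ℕ × ℕ) := mrun deg step (strat deg step) y with hq
  set D : ℕ → Finset Y := fun t => (cs deg step (q t).2).filter fun z => deg z = deg (q t).1
    with hD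
  have hDd : ∀ t, ∀ z ∈ D t, deg z = deg (q t).1 := fun t z hz => (Finset.mem_filter.1 hz).2
  have key : ∃ t, ¬ ∃ l, Dl deg step (D t) l := by
    by_contra hc
    push Not at hc
    have hdec : ∀ t, pot deg step (D (t + 1)) < pot deg step (D t) := by
      intro t
      obtain ⟨i, l', hl, hi⟩ := ls_cons deg step hst (hDd t) (hc t)
      have h1 : strat deg step (q t).2 (deg (q t).1) % deg (q t).1 =
          (ls deg step (D t)).headD 0 := by
        have h2 : strat deg step (q t).2 (deg (q t).1) = (ls deg step (D t)).headD 0 := rfl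
        rw [h2, hl]
        exact Nat.mod_eq_of_lt hi
      have h3 : cs deg step (q (t + 1)).2 =
          (D t).image fun y => step y ((ls deg step (D t)).headD 0) := by
        rw [hq, mrun_succ]
        simp only
        rw [cs_append, ← hq]
        simp only
        rw [h1]
      have h4 : D (t + 1) = ((D t).image fun y => step y ((ls deg step (D t)).headD 0)).filter
          fun z => deg z = deg (q (t + 1)).1 := by
        simp only [hD]
        rw [h3]
      rw [h4]
      exact pot_lt deg step hst (hDd t) (hc t) _
    obtain ⟨t, ht⟩ := WellFounded.not_rel_apply_succ (r := (· < ·))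
      (fun t => pot deg step (D t))
    exact ht (hdec t)
  obtain ⟨t, ht⟩ := key
  refine ⟨t + 1, fun y' h => ?_⟩
  have m1 := mem_cs deg step (strat deg step) y (t + 1)
  have m2 := mem_cs deg step (strat deg step) y' (t + 1)
  rw [← h] at m2
  have h3 : cs deg step (q (t + 1)).2 = (D t).image fun y => step y
      (strat deg step (q t).2 (deg (q t).1) % deg (q t).1) := by
    rw [hq, mrun_succ]
    simp only
    rw [cs_append, ← hq]
  change (q (t + 1)).1 ∈ cs deg step (q (t + 1)).2 at m1
  rw [h3, Finset.mem_image] at m1 m2
  obtain ⟨a, ha, ha'⟩ := m1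
  obtain ⟨b, hb, hb'⟩ := m2
  intro l
  rw [← ha', ← hb']
  by_contra hl
  exact ht ⟨(strat deg step (q t).2 (deg (q t).1) % deg (q t).1) :: l, a, ha, b, hb, hl⟩

end machine

end H539
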