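import Pool.Agent.H539.VG.Defs

/-!
Periodicity of visibility structures; the integer versions of the properties `ca` and `ps`
(in the structure they are stated for natural numbers).
-/

set_option autoImplicit false

namespace H539

open Classical

variable {n : ℕ}

lemma VG.per' (G : VG n) (s t : ℤ) : G.adj s (t + n) ↔ G.adj s t :=
  ⟨fun h => G.symm _ _ ((G.per t s).1 (G.symm _ _ h)),
    fun h => G.symm _ _ ((G.per t s).2 (G.symm _ _ h))⟩

lemma VG.perk (G : VG n) (k s t : ℤ) : G.adj (s + k * n) t ↔ G.adj s t := by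
  induction k using Int.induction_on with
  | zero => simp
  | succ k ih =>
    rw [← ih, show s + ((k : ℤ) + 1) * n = (s + (k : ℤ) * n) + n by ring]
    exact G.per _ _
  | pred k ih =>
    rw [← ih, show s + -(k : ℤ) * n = (s + (-(k : ℤ) - 1) * n) + n by ring]
    exact (G.per _ _).symm

lemma VG.perk' (G : VG n) (k s t : ℤ) : G.adj s (t + k * n) ↔ G.adj s t :=
  ⟨fun h => G.symm _ _ ((G.perk k t s).1 (G.symm _ _ h)),
    fun h => G.symm _ _ ((G.perk k t s).2 (G.symm _ _ h))⟩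

lemma VG.perkk (G : VG n) (k s t : ℤ) : G.adj (s + k * n) (t + k * n) ↔ G.adj s t :=
  (G.perk k _ _).trans (G.perk' k _ _)

lemma VG.exists_shift (hn : 0 < n) (G : VG n) (v : ℤ) :
    ∃ K : ℤ, 0 ≤ v + K ∧ ∀ s t, G.adj (s + K) (t + K) ↔ G.adj s t := by
  refine ⟨|v| * n, ?_, fun s t => G.perkk _ s t⟩
  have hz : (1 : ℤ) ≤ n := by exact_mod_cast hn
  have h1 : -|v| ≤ v := neg_abs_le v
  have h2 : 0 ≤ |v| := abs_nonneg v
  nlinarith

/-- integer version of `ca` -/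
lemma VG.caZ (G : VG n) (v x y : ℤ) (h1 : v < x) (h2 : x < y) (h3 : y < v + n)
    (h4 : G.adj v x) (h5 : G.adj v y) (h6 : ∀ t, x < t → t < y → ¬ G.adj v t) : G.adj x y := by
  obtain ⟨K, hK, hs⟩ := G.exists_shift (by omega) v
  obtain ⟨V, hV⟩ := Int.eq_ofNat_of_zero_le (a := v + K) hK
  obtain ⟨X, hX⟩ := Int.eq_ofNat_of_zero_le (a := x + K) (by omega)
  obtain ⟨Y, hY⟩ := Int.eq_ofNat_of_zero_le (a := y + K) (by omega)
  have := G.ca V X Y (by omega) (by omega) (by omega)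
    (by rw [← hV, ← hX, hs]; exact h4) (by rw [← hV, ← hY, hs]; exact h5)
    (fun t ht1 ht2 => by
      rw [← hV, show ((t : ℕ) : ℤ) = ((t : ℤ) - K) + K by ring, hs]
      exact h6 _ (by omega) (by omega))
  rwa [← hX, ← hY, hs] at this

/-- integer version of `ps` -/
lemma VG.psZ (G : VG n) (v x y : ℤ) (h1 : v < x) (h2 : x < y) (h3 : y < v + n)
    (h4 : G.adj v x) (h5 : G.adj v y) (h6 : ∀ t, x < t → t < y → ¬ G.adj v t) :
    ∃ w, x ≤ w ∧ w < y ∧ (∀ p q, v ≤ p → p < x → x < q → q ≤ w → ¬ G.adj p q) ∧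
      (∀ p q, w < p → p < y → y < q → q ≤ v + n → ¬ G.adj p q) := by
  obtain ⟨K, hK, hs⟩ := G.exists_shift (by omega) v
  obtain ⟨V, hV⟩ := Int.eq_ofNat_of_zero_le (a := v + K) hK
  obtain ⟨X, hX⟩ := Int.eq_ofNat_of_zero_le (a := x + K) (by omega)
  obtain ⟨Y, hY⟩ := Int.eq_ofNat_of_zero_le (a := y + K) (by omega)
  obtain ⟨W, hW1, hW2, hW3, hW4⟩ := G.ps V X Y (by omega) (by omega) (by omega)
    (by rw [← hV, ← hX, hs]; exact h4) (by rw [← hV, ← hY, hs]; exact h5)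
    (fun t ht1 ht2 => by
      rw [← hV, show ((t : ℕ) : ℤ) = ((t : ℤ) - K) + K by ring, hs]
      exact h6 _ (by omega) (by omega))
  refine ⟨(W : ℤ) - K, by omega, by omega, fun p q hp1 hp2 hq1 hq2 => ?_,
    fun p q hp1 hp2 hq1 hq2 => ?_⟩
  · obtain ⟨P, hP⟩ := Int.eq_ofNat_of_zero_le (a := p + K) (by omega)
    obtain ⟨Q, hQ⟩ := Int.eq_ofNat_of_zero_le (a := q + K) (by omega)
    have := hW3 P Q (by omega) (by omega) (by omega) (by omega)
    rwa [← hP, ← hQ, hs] at this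
  · obtain ⟨P, hP⟩ := Int.eq_ofNat_of_zero_le (a := p + K) (by omega)
    obtain ⟨Q, hQ⟩ := Int.eq_ofNat_of_zero_le (a := q + K) (by omega)
    have := hW4 P Q (by omega) (by omega) (by omega) (by omega)
    rwa [← hP, ← hQ, hs] at this

end H539
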