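import Pool.Agent.H539.VG.TB1
import Pool.Agent.H539.VG.Zv

/-!
Exploring agent in a visibility structure: shifts, finiteness, the strategy.
-/

set_option autoImplicit false

namespace H539

open Classical

variable {n : ℕ}

/-- indistinguishable by any sequence of moves -/
def Bisim {n : ℕ} (G G' : VG n) (s s' : ℤ) : Prop :=
  ∀ l : List ℕ, dg G.adj n (l.foldl (go G.adj n) s) = dg G'.adj n (l.foldl (go G'.adj n) s')

/-! ### shifts -/

lemma nbrs_shift (adj adj' : ℤ → ℤ → Prop) (c v : ℤ) (h : ∀ t, adj' (v + c) (t + c) ↔ adj v t) :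
    nbrs adj' n (v + c) = (nbrs adj n v).map (· + c) := by
  unfold nbrs
  rw [List.filter_map, List.filter_map, List.map_map]
  have e1 : (fun i : ℕ => v + c + 1 + (i : ℤ)) = ((· + c) ∘ fun i : ℕ => v + 1 + (i : ℤ)) := by
    funext i
    simp only [Function.comp]
    ring
  rw [e1]
  congr 1
  apply List.filter_congr
  intro i _
  simp only [Function.comp]
  rw [decide_eq_decide]
  exact h _

lemma dg_shift (adj adj' : ℤ → ℤ → Prop) (c v : ℤ) (h : ∀ t, adj' (v + c) (t + c) ↔ adj v t) :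
    dg adj' n (v + c) = dg adj n v := by
  unfold dg
  rw [nbrs_shift adj adj' c v h, List.length_map]

lemma go_shift (adj adj' : ℤ → ℤ → Prop) (c v : ℤ) (h : ∀ t, adj' (v + c) (t + c) ↔ adj v t)
    (i : ℕ) : go adj' n (v + c) i = go adj n v i + c := by
  unfold go
  rw [nbrs_shift adj adj' c v h]
  exact List.getD_map (f := (· + c)) (d := v) ..

lemma fold_shift (adj adj' : ℤ → ℤ → Prop) (c : ℤ) (h : ∀ s t, adj' (s + c) (t + c) ↔ adj s t)
    (l : List ℕ) (v : ℤ) :
    l.foldl (go adj' n) (v + c) = l.foldl (go adj n) v + c := by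
  induction l generalizing v with
  | nil => rfl
  | cons i l ih =>
    simp only [List.foldl_cons]
    rw [go_shift adj adj' c v (h v), ih]

/-! ### periodicity -/

lemma VG.mod (G : VG n) (s t : ℤ) : G.adj (s % n) (t % n) ↔ G.adj s t := by
  have h1 : s = s % n + (s / n) * n := by
    have := Int.emod_add_mul_ediv s n
    linarith [mul_comm (n : ℤ) (s / n)]
  have h2 : t = t % n + (t / n) * n := by
    have := Int.emod_add_mul_ediv t n
    linarith [mul_comm (n : ℤ) (t / n)]
  conv_rhs => rw [h1, h2]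
  rw [G.perk, G.perk']

lemma VG.congr_mod (G : VG n) {s s' t t' : ℤ} (h : s % n = s' % n) (h' : t % n = t' % n) :
    G.adj s t ↔ G.adj s' t' := by
  rw [← G.mod s t, ← G.mod s' t', h, h']

lemma dg_k (G : VG n) (k v : ℤ) : dg G.adj n (v + k * n) = dg G.adj n v :=
  dg_shift _ _ _ _ fun t => G.perkk k v t

lemma go_k (G : VG n) (k v : ℤ) (i : ℕ) :
    go G.adj n (v + k * n) i = go G.adj n v i + k * n :=
  go_shift _ _ _ _ (fun t => G.perkk k v t) i

lemma fold_k (G : VG n) (k : ℤ) (l : List ℕ) (v : ℤ) :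
    l.foldl (go G.adj n) (v + k * n) = l.foldl (go G.adj n) v + k * n :=
  fold_shift _ _ _ (fun s t => G.perkk k s t) l v

lemma vg_ext (G G' : VG n) (h : ∀ s t, G.adj s t ↔ G'.adj s t) : G = G' := by
  have : G.adj = G'.adj := by
    funext s t
    exact propext (h s t)
  cases G
  cases G'
  simp only at this
  subst this
  rfl

lemma finite_VG (hn : 0 < n) : Finite (VG n) := by
  apply Finite.of_injective (β := Fin n × Fin n → Prop)
    (fun G : VG n => fun p : Fin n × Fin n => G.adj ((p.1 : ℕ) : ℤ) ((p.2 : ℕ) : ℤ))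
  intro G G' h
  apply vg_ext
  intro s t
  have hz : (0 : ℤ) < n := by exact_mod_cast hn
  have hs : ((s % n).toNat : ℤ) = s % n := Int.toNat_of_nonneg (Int.emod_nonneg _ hz.ne')
  have ht : ((t % n).toNat : ℤ) = t % n := Int.toNat_of_nonneg (Int.emod_nonneg _ hz.ne')
  have hs' : (s % n).toNat < n := by
    have := Int.emod_lt_of_pos s hz
    omega
  have ht' : (t % n).toNat < n := by
    have := Int.emod_lt_of_pos t hz
    omega
  have h1 := congrFun h (⟨(s % n).toNat, hs'⟩, ⟨(t % n).toNat, ht'⟩)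
  simp only [hs, ht] at h1
  rw [← G.mod s t, ← G'.mod s t, h1]

/-! ### the finite automaton -/

/-- degree on the automaton -/
noncomputable def gdeg (p : VG n × ZMod n) : ℕ := dg p.1.adj n ((p.2.val : ℕ) : ℤ)

/-- move of the automaton -/
noncomputable def gstep (p : VG n × ZMod n) (i : ℕ) : VG n × ZMod n :=
  (p.1, ((go p.1.adj n ((p.2.val : ℕ) : ℤ) i : ℤ) : ZMod n))

lemma val_cast [NeZero n] (s : ℤ) : s = (((s : ZMod n).val : ℕ) : ℤ) + (s / n) * n := by
  rw [ZMod.val_intCast]
  have := Int.emod_add_mul_ediv s n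
  linarith [mul_comm (n : ℤ) (s / n)]

lemma gdeg_mk [NeZero n] (G : VG n) (s : ℤ) : gdeg (G, (s : ZMod n)) = dg G.adj n s := by
  conv_rhs => rw [val_cast (n := n) s]
  rw [dg_k]
  rfl

lemma gstep_mk [NeZero n] (G : VG n) (s : ℤ) (i : ℕ) :
    gstep (G, (s : ZMod n)) i = (G, ((go G.adj n s i : ℤ) : ZMod n)) := by
  conv_rhs => rw [val_cast (n := n) s]
  rw [go_k]
  unfold gstep
  simp

lemma gfold [NeZero n] (G : VG n) (l : List ℕ) (s : ℤ) :
    l.foldl gstep (G, (s : ZMod n)) = (G, ((l.foldl (go G.adj n) s : ℤ) : ZMod n)) := by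
  induction l generalizing s with
  | nil => rfl
  | cons i l ih =>
    simp only [List.foldl_cons]
    rw [gstep_mk, ih]

lemma grun [NeZero n] (S : Strategy) (G : VG n) (s : ℤ) (t : ℕ) :
    mrun gdeg gstep S (G, (s : ZMod n)) t =
      ((G, ((run S G.adj n s t).1 : ZMod n)), (run S G.adj n s t).2) := by
  induction t with
  | zero => rfl
  | succ t ih =>
    rw [mrun_succ, ih]
    simp only [gdeg_mk, gstep_mk]
    rfl

lemma gstay [NeZero n] (p : VG n × ZMod n) (i : ℕ) (h : gdeg p ≤ i) : gstep p i = p := by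
  obtain ⟨G, r⟩ := p
  have h1 : go G.adj n ((r.val : ℕ) : ℤ) i = ((r.val : ℕ) : ℤ) := by
    unfold go
    apply List.getD_eq_default
    exact h
  unfold gstep
  simp only [h1]
  simp

theorem exists_strategy {n : ℕ} (hn : 3 ≤ n) : ∃ S : Strategy, ∀ (G : VG n) (s : ℤ), ∃ t : ℕ,
    ∀ (G' : VG n) (s' : ℤ), obs S G.adj n s t = obs S G'.adj n s' t →
      Bisim G G' (run S G.adj n s t).1 (run S G'.adj n s' t).1 := by
  have : NeZero n := ⟨by omega⟩
  have := finite_VG (n := n) (by omega)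
  have : Fintype (VG n × ZMod n) := Fintype.ofFinite _
  obtain ⟨S, hS⟩ := machine_strategy (Y := VG n × ZMod n) gdeg gstep gstay
  refine ⟨S, fun G s => ?_⟩
  obtain ⟨t, ht⟩ := hS (G, (s : ZMod n))
  refine ⟨t, fun G' s' h l => ?_⟩
  have h1 := ht (G', (s' : ZMod n)) (by rw [grun, grun]; exact h) l
  rw [grun, grun] at h1
  simp only at h1
  rw [gfold, gfold, gdeg_mk, gdeg_mk] at h1
  exact h1

end H539
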