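import Pool.Agent.H539.VG.Two

/-!
Uniqueness for classes of three vertices.
-/

set_option autoImplicit false

namespace H539

open Classical

variable {n : ℕ} {ι : Type}

section step

variable {F : ι → VG n} {k ℓ : ℕ} (hn : n = 3 * k) (hw : Wd F k) (h1 : 1 < ℓ) (hℓ : ℓ < k)
  (IH : ∀ e : ℕ, 0 < e → e < ℓ → Pd F k e) {x : ι} {i : ℤ} (h : (F x).adj i (i + (ℓ : ℤ)))
  (y : ι)

include hn hw h1 hℓ IH h

/-- forward -/
lemma fw3 {s : ℤ} (hs : i % (k : ℤ) = s % (k : ℤ)) (hx : ¬ A (F y) s ℓ) :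
    (A (F y) s (ℓ + k) ∧ ∀ e : ℕ, ℓ ≤ e → e < ℓ + k → ¬ (F y).adj s (s + (e : ℤ))) ∨
    (¬ A (F y) s (ℓ + k) ∧ A (F y) s (ℓ + 2 * k) ∧
      ∀ e : ℕ, ℓ ≤ e → e < ℓ + 2 * k → ¬ (F y).adj s (s + (e : ℤ))) := by
  obtain ⟨d, d1, d2, d3, ⟨q, hq⟩, d5⟩ := fw hw (by omega) (by omega) IH (y := y) hs h
  obtain ⟨q1, q2⟩ := q_bounds (m := 3) hq d1 (by omega)
  have q3 : q < 3 := by exact_mod_cast q2
  have hqc : q = 0 ∨ q = 1 ∨ q = 2 := by omega
  rcases hqc with rfl | rfl | rfl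
  · exfalso
    have : d = ℓ := by
      have : (d : ℤ) = ℓ := by rw [hq]; ring
      exact_mod_cast this
    subst this
    exact hx d3
  · left
    have hd : d = ℓ + k := by
      have : (d : ℤ) = ℓ + k := by rw [hq]; ring
      exact_mod_cast this
    subst hd
    exact ⟨d3, d5⟩
  · right
    have hd : d = ℓ + 2 * k := by
      have : (d : ℤ) = ℓ + 2 * k := by rw [hq]
      exact_mod_cast this
    subst hd
    exact ⟨d5 _ (by omega) (by omega), d3, d5⟩

/-- backward -/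
lemma bw3 {s : ℤ} (hs : i % (k : ℤ) = s % (k : ℤ)) (hx : ¬ A (F y) s ℓ) :
    (A (F y) (s - k) (ℓ + k) ∧
      ∀ e : ℕ, ℓ ≤ e → e < ℓ + k → ¬ (F y).adj (s + ℓ - e) (s + (ℓ : ℤ))) ∨
    (¬ A (F y) (s - k) (ℓ + k) ∧ A (F y) (s - 2 * k) (ℓ + 2 * k) ∧
      ∀ e : ℕ, ℓ ≤ e → e < ℓ + 2 * k → ¬ (F y).adj (s + ℓ - e) (s + (ℓ : ℤ))) := by
  obtain ⟨d, d1, d2, d3, ⟨q, hq⟩, d5⟩ := bw (Dvd.intro_left 3 (by subst hn; push_cast; ring))
    hw (by omega) (by omega) IH (y := y) hs h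
  obtain ⟨q1, q2⟩ := q_bounds (m := 3) hq d1 (by omega)
  have q3 : q < 3 := by exact_mod_cast q2
  have hqc : q = 0 ∨ q = 1 ∨ q = 2 := by omega
  rcases hqc with rfl | rfl | rfl
  · exfalso
    have : d = ℓ := by
      have : (d : ℤ) = ℓ := by rw [hq]; ring
      exact_mod_cast this
    subst this
    apply hx
    unfold A
    rw [show s + (d : ℤ) - d = s by ring] at d3
    exact d3
  · left
    have hd : d = ℓ + k := by
      have : (d : ℤ) = ℓ + k := by rw [hq]; ring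
      exact_mod_cast this
    subst hd
    refine ⟨?_, d5⟩
    unfold A
    rw [show s + (ℓ : ℤ) - ((ℓ + k : ℕ) : ℤ) = s - k by push_cast; ring] at d3
    rw [show s - (k : ℤ) + ((ℓ + k : ℕ) : ℤ) = s + ℓ by push_cast; ring]
    exact d3
  · right
    have hd : d = ℓ + 2 * k := by
      have : (d : ℤ) = ℓ + 2 * k := by rw [hq]
      exact_mod_cast this
    subst hd
    refine ⟨?_, ?_, d5⟩
    · have := d5 (ℓ + k) (by omega) (by omega)
      unfold A
      rw [show s + (ℓ : ℤ) - ((ℓ + k : ℕ) : ℤ) = s - k by push_cast; ring] at this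
      rw [show s - (k : ℤ) + ((ℓ + k : ℕ) : ℤ) = s + ℓ by push_cast; ring]
      exact this
    · unfold A
      rw [show s + (ℓ : ℤ) - ((ℓ + 2 * k : ℕ) : ℤ) = s - 2 * k by push_cast; ring] at d3
      rw [show s - 2 * (k : ℤ) + ((ℓ + 2 * k : ℕ) : ℤ) = s + ℓ by push_cast; ring]
      exact d3

lemma mut1 {s : ℤ} (hs : i % (k : ℤ) = s % (k : ℤ)) (hx : ¬ A (F y) s ℓ)
    (hx' : ¬ A (F y) (s + k) ℓ) (hy : A (F y) s (ℓ + k)) : False := by
  have hs' : i % (k : ℤ) = (s + k) % (k : ℤ) := by rw [Int.add_emod_right]; exact hs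
  rcases fw3 hn hw h1 hℓ IH h y hs hx with ⟨_, a2⟩ | ⟨a1, _⟩
  · rcases bw3 hn hw h1 hℓ IH h y hs' hx' with ⟨_, b2⟩ | ⟨b1, _⟩
    · refine mutl (G := F y) (s := s) (ℓ := ℓ) (D := ℓ + k) h1 (by omega) (by omega) hy a2 ?_
      intro e he1 he2 hcon
      apply b2 e he1 he2
      rw [show s + (k : ℤ) + (ℓ : ℤ) = s + ((ℓ + k : ℕ) : ℤ) by push_cast; ring]
      exact hcon
    · rw [add_sub_cancel_right] at b1
      exact b1 hy
  · exact a1 hy

lemma mut2 {s : ℤ} (hs : i % (k : ℤ) = s % (k : ℤ)) (hx : ¬ A (F y) s ℓ)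
    (hy : ¬ A (F y) s (ℓ + k)) (hx' : ¬ A (F y) (s + 2 * k) ℓ)
    (hy' : ¬ A (F y) (s + k) (ℓ + k)) : False := by
  have hs' : i % (k : ℤ) = (s + 2 * k) % (k : ℤ) := by
    rw [Int.add_mul_emod_self_right]; exact hs
  rcases fw3 hn hw h1 hℓ IH h y hs hx with ⟨a1, _⟩ | ⟨_, a2, a3⟩
  · exact hy a1
  · rcases bw3 hn hw h1 hℓ IH h y hs' hx' with ⟨b1, _⟩ | ⟨_, _, b3⟩
    · rw [show s + 2 * (k : ℤ) - k = s + k by ring] at b1
      exact hy' b1
    · refine mutl (G := F y) (s := s) (ℓ := ℓ) (D := ℓ + 2 * k) h1 (by omega) (by omega) a2 a3 ?_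
      intro e he1 he2 hcon
      apply b3 e he1 he2
      rw [show s + 2 * (k : ℤ) + (ℓ : ℤ) = s + ((ℓ + 2 * k : ℕ) : ℤ) by push_cast; ring]
      exact hcon

omit h IH h1 in
lemma cT3 (s s' : ℤ) (hs : s % (k : ℤ) = s' % (k : ℤ)) (h0 : 0 < ℓ) :
    b01 (A (F y) (s + k) (ℓ + 2 * k)) +
      (b01 (A (F y) (s + 2 * k) (ℓ + k)) + b01 (A (F y) s ℓ)) =
    b01 (A (F y) (s' + k) (ℓ + 2 * k)) +
      (b01 (A (F y) (s' + 2 * k) (ℓ + k)) + b01 (A (F y) s' ℓ)) := by
  have cT := cnt3_len (r := k - ℓ) hw (by omega) (by omega) hn y y (mod_add hs (ℓ : ℤ))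
  have e1 : ∀ s : ℤ, A (F y) (s + ℓ) (k - ℓ) ↔ A (F y) (s + k) (ℓ + 2 * k) := by
    intro s
    unfold A
    rw [show s + (ℓ : ℤ) + ((k - ℓ : ℕ) : ℤ) = s + k by push_cast [Nat.cast_sub hℓ.le]; ring,
      show s + (k : ℤ) + ((ℓ + 2 * k : ℕ) : ℤ) = s + ℓ + n by subst hn; push_cast; ring,
      (F y).per', adj_comm]
  have e2 : ∀ s : ℤ, A (F y) (s + ℓ) (k - ℓ + k) ↔ A (F y) (s + 2 * k) (ℓ + k) := by
    intro s
    unfold A
    rw [show s + (ℓ : ℤ) + ((k - ℓ + k : ℕ) : ℤ) = s + 2 * k by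
        push_cast [Nat.cast_sub hℓ.le]; ring,
      show s + 2 * (k : ℤ) + ((ℓ + k : ℕ) : ℤ) = s + ℓ + n by subst hn; push_cast; ring,
      (F y).per', adj_comm]
  have e3 : ∀ s : ℤ, A (F y) (s + ℓ) (k - ℓ + 2 * k) ↔ A (F y) s ℓ := by
    intro s
    unfold A
    rw [show s + (ℓ : ℤ) + ((k - ℓ + 2 * k : ℕ) : ℤ) = s + n by
        subst hn; push_cast [Nat.cast_sub hℓ.le]; ring, (F y).per', adj_comm]
  rw [b01_congr (e1 s), b01_congr (e2 s), b01_congr (e3 s), b01_congr (e1 s'),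
    b01_congr (e2 s'), b01_congr (e3 s')] at cT
  exact cT

/-- the last configuration -/
lemma last3 {j : ℤ} (hj : i % (k : ℤ) = j % (k : ℤ)) (hx : ¬ A (F y) j ℓ)
    (hy0 : A (F y) j (ℓ + k)) (hy2 : A (F y) (j - k) (ℓ + k)) : False := by
  rcases fw3 hn hw h1 hℓ IH h y hj hx with ⟨_, f2⟩ | ⟨a1, _⟩
  swap
  · exact a1 hy0
  rcases bw3 hn hw h1 hℓ IH h y hj hx with ⟨_, g2⟩ | ⟨b1, _⟩
  swap
  · exact b1 hy2
  have hsucc : (F y).adj j (j + ((1 : ℕ) : ℤ)) := by exact_mod_cast (F y).succ j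
  obtain ⟨a, a1, a2, a3, a4⟩ := exists_max (p := fun e => (F y).adj j (j + (e : ℤ))) (ℓ := ℓ)
    hsucc h1
  have hpred : (F y).adj (j + ℓ - ((1 : ℕ) : ℤ)) (j + (ℓ : ℤ)) := by
    have := (F y).succ (j + ℓ - 1)
    rw [sub_add_cancel] at this
    exact_mod_cast this
  obtain ⟨z, z1, z2, z3, z4⟩ := exists_max
    (p := fun e => (F y).adj (j + ℓ - (e : ℤ)) (j + (ℓ : ℤ))) (ℓ := ℓ) hpred h1
  -- F1
  have F1 : (F y).adj (j + a) (j + ((ℓ + k : ℕ) : ℤ)) := by
    refine (F y).caZ j (j + a) (j + ((ℓ + k : ℕ) : ℤ)) (by omega) (by push_cast; omega)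
      (by push_cast; omega) a3 hy0 ?_
    intro t ht1 ht2 ht3
    obtain ⟨e, he⟩ := Int.eq_ofNat_of_zero_le (a := t - j) (by omega)
    have e1 : t = j + (e : ℤ) := by
      have : (Int.ofNat e : ℤ) = (e : ℤ) := rfl
      omega
    rw [e1] at ht3
    push_cast at ht2
    by_cases hel : e < ℓ
    · exact a4 e (by omega) hel ht3
    · exact f2 e (by omega) (by omega) ht3
  have hy2' : (F y).adj (j - k) (j + (ℓ : ℤ)) := by
    have := hy2
    unfold A at this
    rw [show j - (k : ℤ) + ((ℓ + k : ℕ) : ℤ) = j + ℓ by push_cast; ring] at this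
    exact this
  -- F2
  have F2 : (F y).adj (j - k) (j + ℓ - (z : ℤ)) := by
    have := (F y).caZ (j + ℓ) (j - k + n) (j + ℓ - z + n) (by subst hn; push_cast; omega)
      (by omega) (by omega) (by rw [(F y).per', adj_comm]; exact hy2')
      (by rw [(F y).per', adj_comm]; exact z3) ?_
    · rw [(F y).per', (F y).per] at this
      exact this
    · intro t ht1 ht2 ht3
      obtain ⟨e, he⟩ := Int.eq_ofNat_of_zero_le (a := j + ℓ + n - t) (by omega)
      have e1 : t = j + ℓ - (e : ℤ) + n := by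
        have : (Int.ofNat e : ℤ) = (e : ℤ) := rfl
        omega
      rw [e1, (F y).per', adj_comm] at ht3
      by_cases hel : e < ℓ
      · exact z4 e (by omega) hel ht3
      · exact g2 e (by omega) (by omega) ht3
  -- F3
  have F3 : (F y).adj (j + a) (j + (ℓ : ℤ)) := by
    have h2 : (F x).adj (i + a) (i + (ℓ : ℤ)) := by
      refine (F x).caZ i (i + a) (i + ℓ) (by omega) (by omega) (by omega)
        ((IH a (by omega) a2 x y i j hj).2 a3) h ?_
      intro t ht1 ht2 ht3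
      obtain ⟨e, he⟩ := Int.eq_ofNat_of_zero_le (a := t - i) (by omega)
      have e1 : t = i + (e : ℤ) := by
        have : (Int.ofNat e : ℤ) = (e : ℤ) := rfl
        omega
      rw [e1] at ht3
      exact a4 e (by omega) (by omega) ((IH e (by omega) (by omega) x y i j hj).1 ht3)
    have h3 := IH (ℓ - a) (by omega) (by omega) x y (i + a) (j + a) (mod_add hj _)
    have e1 : ∀ c : ℤ, c + (a : ℤ) + ((ℓ - a : ℕ) : ℤ) = c + ℓ := by
      intro c; push_cast [Nat.cast_sub a2.le]; ring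
    rw [e1, e1] at h3
    exact h3.1 h2
  -- F4
  have F4 : (F y).adj j (j + ((ℓ - z : ℕ) : ℤ)) := by
    have h2 : (F x).adj i (i + ((ℓ - z : ℕ) : ℤ)) := by
      have conv : ∀ e : ℕ, 0 < e → e < ℓ → ((F x).adj (i + ℓ - (e : ℤ)) (i + (ℓ : ℤ)) ↔
          (F y).adj (j + ℓ - (e : ℤ)) (j + (ℓ : ℤ))) := by
        intro e he1 he2
        have h3 := IH e he1 he2 x y (i + ℓ - e) (j + ℓ - e) (by
          have := mod_add hj ((ℓ : ℤ) - e)
          rw [show i + ((ℓ : ℤ) - e) = i + ℓ - e by ring,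
            show j + ((ℓ : ℤ) - e) = j + ℓ - e by ring] at this
          exact this)
        rw [sub_add_cancel, sub_add_cancel] at h3
        exact h3
      have := (F x).caZ (i + ℓ) (i + n) (i + ℓ - z + n) (by omega)
        (by omega) (by omega) (by rw [(F x).per', adj_comm]; exact h)
        (by rw [(F x).per', adj_comm]; exact (conv z (by omega) z2).2 z3) ?_
      · rw [(F x).per', (F x).per] at this
        rw [show i + ((ℓ - z : ℕ) : ℤ) = i + ℓ - z by push_cast [Nat.cast_sub z2.le]; ring]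
        exact this
      · intro t ht1 ht2 ht3
        obtain ⟨e, he⟩ := Int.eq_ofNat_of_zero_le (a := i + ℓ + n - t) (by omega)
        have e1 : t = i + ℓ - (e : ℤ) + n := by
          have : (Int.ofNat e : ℤ) = (e : ℤ) := rfl
          omega
        rw [e1, (F x).per', adj_comm] at ht3
        exact z4 e (by omega) (by omega) ((conv e (by omega) (by omega)).1 ht3)
    exact (IH (ℓ - z) (by omega) (by omega) x y i j hj).1 h2
  have hza : ℓ - a ≤ z := by
    by_contra hc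
    apply z4 (ℓ - a) (by omega) (by omega)
    rw [show j + (ℓ : ℤ) - ((ℓ - a : ℕ) : ℤ) = j + a by push_cast [Nat.cast_sub a2.le]; ring]
    exact F3
  have hz : ℓ - z = a := by
    by_contra hc
    have hlt : ℓ - z < a := by omega
    obtain ⟨w, w1, w2, w3, w4⟩ := (F y).psZ j (j + a) (j + ((ℓ + k : ℕ) : ℤ)) (by omega)
      (by push_cast; omega) (by push_cast; omega) a3 hy0 (by
        intro t ht1 ht2 ht3
        obtain ⟨e, he⟩ := Int.eq_ofNat_of_zero_le (a := t - j) (by omega)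
        have e1 : t = j + (e : ℤ) := by
          have : (Int.ofNat e : ℤ) = (e : ℤ) := rfl
          omega
        rw [e1] at ht3
        push_cast at ht2
        by_cases hel : e < ℓ
        · exact a4 e (by omega) hel ht3
        · exact f2 e (by omega) (by omega) ht3)
    by_cases hwl : j + (ℓ : ℤ) ≤ w
    · exact w3 (j + ℓ - z) (j + ℓ) (by omega) (by omega) (by omega) hwl z3
    · refine w4 (j + ℓ) (j - k + n) (by omega) (by push_cast; omega)
        (by subst hn; push_cast; omega) (by omega) ?_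
      rw [(F y).per', adj_comm]
      exact hy2'
  -- the words of u = j + a and u - k
  set u : ℤ := j + a with hu
  have hb0 : 0 < ℓ - a := by omega
  have hbc : ℓ - a < k - a := by omega
  have hck : k - a < k := by omega
  have huu : u % (k : ℤ) = (u - k) % (k : ℤ) := by rw [Int.sub_emod_right]
  have U1 : A (F y) u (ℓ - a) := by
    unfold A
    rw [show u + ((ℓ - a : ℕ) : ℤ) = j + ℓ by rw [hu]; push_cast [Nat.cast_sub a2.le]; ring]
    exact F3
  have U2 : A (F y) u (ℓ - a + k) := by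
    unfold A
    rw [show u + ((ℓ - a + k : ℕ) : ℤ) = j + ((ℓ + k : ℕ) : ℤ) by
      rw [hu]; push_cast [Nat.cast_sub a2.le]; ring]
    exact F1
  have hzz : j + ℓ - (z : ℤ) = u := by
    rw [hu]; omega
  have U3 : A (F y) u (k - a + k) := by
    unfold A
    rw [show u + ((k - a + k : ℕ) : ℤ) = j - k + n by
      rw [hu]; subst hn; push_cast [Nat.cast_sub (show a ≤ k by omega)]; ring, (F y).per',
      adj_comm, ← hzz]
    exact F2
  have U4 : A (F y) u (k - a + 2 * k) := by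
    unfold A
    rw [show u + ((k - a + 2 * k : ℕ) : ℤ) = j + n by
      rw [hu]; subst hn; push_cast [Nat.cast_sub (show a ≤ k by omega)]; ring, (F y).per',
      adj_comm]
    exact a3
  have V1 : A (F y) (u - k) (ℓ - a) :=
    (IH (ℓ - a) hb0 (by omega) y y u (u - k) huu).1 U1
  have V2 : ¬ A (F y) (u - k) (ℓ - a + k) := by
    unfold A
    have := g2 (ℓ - a + k) (by omega) (by omega)
    rw [show j + (ℓ : ℤ) - ((ℓ - a + k : ℕ) : ℤ) = u - k by
      rw [hu]; push_cast [Nat.cast_sub a2.le]; ring] at this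
    rw [show u - (k : ℤ) + ((ℓ - a + k : ℕ) : ℤ) = j + ℓ by
      rw [hu]; push_cast [Nat.cast_sub a2.le]; ring]
    exact this
  have V4 : A (F y) (u - k) (k - a + 2 * k) := by
    have h5 := (IH a (by omega) a2 y y j (j - k) (by rw [Int.sub_emod_right])).1 a3
    unfold A
    rw [show u - (k : ℤ) + ((k - a + 2 * k : ℕ) : ℤ) = j - k + n by
      rw [hu]; subst hn; push_cast [Nat.cast_sub (show a ≤ k by omega)]; ring, (F y).per',
      adj_comm, show u - (k : ℤ) = j - k + a by rw [hu]; ring]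
    exact h5
  have c1 := cnt6 (adj := (F y).adj) (s := u) hb0 hbc hck hn
  have c2 := cnt6 (adj := (F y).adj) (s := u - k) hb0 hbc hck hn
  rw [← mod_add huu, ← mod_add huu, ← hw y y u (u - k) huu, c1] at c2
  have hne : (u + ((ℓ - a : ℕ) : ℤ)) % (k : ℤ) ≠ (u + ((k - a : ℕ) : ℤ)) % (k : ℤ) :=
    ne_class (-1) (by push_cast [Nat.cast_sub a2.le, Nat.cast_sub (show a ≤ k by omega)]; omega)
      (by push_cast [Nat.cast_sub a2.le, Nat.cast_sub (show a ≤ k by omega)]; omega)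
  have m1 : ∀ (s : ℤ) (b q : ℕ), (s + ((b + q * k : ℕ) : ℤ)) % (k : ℤ) =
      (s + (b : ℤ)) % (k : ℤ) := by
    intro s b q
    have := eq_class (k := k) (s := s) (r := b) q
    push_cast
    exact this
  have m1' : ∀ (s : ℤ) (b : ℕ), (s + ((b + k : ℕ) : ℤ)) % (k : ℤ) =
      (s + (b : ℤ)) % (k : ℤ) := by
    intro s b
    have := m1 s b 1
    rw [one_mul] at this
    exact this
  have hX1 : ∀ (s : ℤ) (e : ℕ), A (F y) s e → X (F y).adj k s e = [(s + (e : ℤ)) % (k : ℤ)] :=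
    fun s e he => if_pos he
  have hX0 : ∀ (s : ℤ) (e : ℕ), ¬ A (F y) s e → X (F y).adj k s e = [] :=
    fun s e he => if_neg he
  rw [hX1 _ _ U1, hX1 _ _ U2, hX1 _ _ U3, hX1 _ _ U4, hX1 _ _ V1, hX0 _ _ V2, hX1 _ _ V4] at c2
  have hO : ∀ (s : ℤ) (e : ℕ) (c : ℤ), (s + (e : ℤ)) % (k : ℤ) = c →
      X (F y).adj k s e = [] ∨ X (F y).adj k s e = [c] := by
    intro s e c hc
    by_cases he : A (F y) s e
    · right; rw [hX1 _ _ he, hc]
    · left; exact hX0 _ _ he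
  have o1 := hO u (k - a) _ rfl
  have o2 := hO u (ℓ - a + 2 * k) _ (m1 _ _ _)
  have o3 := hO (u - k) (k - a) _ (mod_add huu _).symm
  have o4 := hO (u - k) (k - a + k) _ ((m1' _ _).trans (mod_add huu _).symm)
  have o5 := hO (u - k) (ℓ - a + 2 * k) _ ((m1 _ _ _).trans (mod_add huu _).symm)
  simp only [m1, m1', ← mod_add huu] at c2
  rcases o1 with o1 | o1 <;> rcases o2 with o2 | o2 <;> rcases o3 with o3 | o3 <;>
    rcases o4 with o4 | o4 <;> rcases o5 with o5 | o5 <;>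
    rw [o1, o2, o3, o4, o5] at c2 <;> simp [hne, hne.symm] at c2

end step

end H539
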