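import Pool.Agent.H539.VG.Three

/-!
Uniqueness for classes of three vertices: conclusion.
-/

set_option autoImplicit false

namespace H539

open Classical

variable {n : ℕ} {ι : Type}

lemma three_step {F : ι → VG n} {k : ℕ} (hn : n = 3 * k) (hw : Wd F k) (ℓ : ℕ) (h0 : 0 < ℓ)
    (hℓ : ℓ < k) (IH : ∀ e : ℕ, 0 < e → e < ℓ → Pd F k e) (x y : ι) (i j : ℤ)
    (hij : i % (k : ℤ) = j % (k : ℤ)) (h : (F x).adj i (i + (ℓ : ℤ))) :
    (F y).adj j (j + (ℓ : ℤ)) := by
  by_cases h1 : ℓ = 1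
  · subst h1
    have := (F y).succ j
    exact_mod_cast this
  by_contra hc
  have hℓ1 : 1 < ℓ := by omega
  have p1 : ∀ e : ℕ, A (F y) (j + k + k) e ↔ A (F y) (j + 2 * k) e := by
    intro e
    rw [show j + (k : ℤ) + k = j + 2 * k by ring]
  have p2 : ∀ e : ℕ, A (F y) (j + k + 2 * k) e ↔ A (F y) j e := by
    intro e
    rw [show j + (k : ℤ) + 2 * k = j + n by subst hn; push_cast; ring, A_per]
  have p3 : ∀ e : ℕ, A (F y) (j + 2 * k + k) e ↔ A (F y) j e := by
    intro e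
    rw [show j + 2 * (k : ℤ) + k = j + n by subst hn; push_cast; ring, A_per]
  have p4 : ∀ e : ℕ, A (F y) (j + 2 * k + 2 * k) e ↔ A (F y) (j + k) e := by
    intro e
    rw [show j + 2 * (k : ℤ) + 2 * k = j + k + n by subst hn; push_cast; ring, A_per]
  have p5 : ∀ e : ℕ, A (F y) (j - k) e ↔ A (F y) (j + 2 * k) e := by
    intro e
    rw [← A_per, show j - (k : ℤ) + n = j + 2 * k by subst hn; push_cast; ring]
  have hj1 : j % (k : ℤ) = (j + k) % (k : ℤ) := by rw [Int.add_emod_right]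
  have hj2 : j % (k : ℤ) = (j + 2 * k) % (k : ℤ) := by rw [Int.add_mul_emod_self_right]
  have hi1 := hij.trans hj1
  have hi2 := hij.trans hj2
  have S1 := cnt3_len hw h0 hℓ hn y y hj1
  have S2 := cnt3_len hw h0 hℓ hn y y hj2
  have T1 := cT3 hn hw hℓ y j (j + k) hj1 h0
  have T2 := cT3 hn hw hℓ y j (j + 2 * k) hj2 h0
  rw [b01_congr (p1 _), b01_congr (p2 _)] at T1
  rw [b01_congr (p3 _), b01_congr (p4 _)] at T2
  have z1 := b01_le (A (F y) (j + k) ℓ)
  have z2 := b01_le (A (F y) (j + 2 * k) ℓ)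
  have z3 := b01_le (A (F y) j (ℓ + k))
  have z4 := b01_le (A (F y) (j + k) (ℓ + k))
  have z5 := b01_le (A (F y) (j + 2 * k) (ℓ + k))
  have z6 := b01_le (A (F y) j (ℓ + 2 * k))
  have z7 := b01_le (A (F y) (j + k) (ℓ + 2 * k))
  have z8 := b01_le (A (F y) (j + 2 * k) (ℓ + 2 * k))
  have x0 : b01 (A (F y) j ℓ) = 0 := b01_neg hc
  have g : ∀ s : ℤ, i % (k : ℤ) = s % (k : ℤ) → b01 (A (F y) s ℓ) = 0 →
      1 ≤ b01 (A (F y) s (ℓ + k)) + b01 (A (F y) s (ℓ + 2 * k)) := by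
    intro s hs hs0
    rcases fw3 hn hw hℓ1 hℓ IH h y hs (not_of_b01 hs0) with ⟨a1, _⟩ | ⟨_, a1, _⟩
    · rw [b01_pos a1]; omega
    · rw [b01_pos a1]; omega
  have g0 := g j hij x0
  have g1 := g (j + k) hi1
  have g2 := g (j + 2 * k) hi2
  have m1 : ¬ (b01 (A (F y) (j + k) ℓ) = 0 ∧ b01 (A (F y) j (ℓ + k)) = 1) := by
    rintro ⟨a1, a2⟩
    exact mut1 hn hw hℓ1 hℓ IH h y hij hc (not_of_b01 a1) (of_b01 a2)
  have m3 : ¬ (b01 (A (F y) (j + 2 * k) ℓ) = 0 ∧ b01 (A (F y) (j + 2 * k) (ℓ + k)) = 1) := by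
    rintro ⟨a1, a2⟩
    exact mut1 hn hw hℓ1 hℓ IH h y hi2 (not_of_b01 a1) ((not_congr (p3 ℓ)).2 hc) (of_b01 a2)
  have m4 : ¬ (b01 (A (F y) j (ℓ + k)) = 0 ∧ b01 (A (F y) (j + 2 * k) ℓ) = 0 ∧
      b01 (A (F y) (j + k) (ℓ + k)) = 0) := by
    rintro ⟨a1, a2, a3⟩
    exact mut2 hn hw hℓ1 hℓ IH h y hij hc (not_of_b01 a1) (not_of_b01 a2) (not_of_b01 a3)
  have m2 : ¬ (b01 (A (F y) (j + k) ℓ) = 0 ∧ b01 (A (F y) (j + 2 * k) ℓ) = 0 ∧
      b01 (A (F y) (j + k) (ℓ + k)) = 1) := by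
    rintro ⟨a1, a2, a3⟩
    exact mut1 hn hw hℓ1 hℓ IH h y hi1 (not_of_b01 a1) ((not_congr (p1 ℓ)).2 (not_of_b01 a2))
      (of_b01 a3)
  have l1 : ¬ (b01 (A (F y) j (ℓ + k)) = 1 ∧ b01 (A (F y) (j + 2 * k) (ℓ + k)) = 1) := by
    rintro ⟨a1, a2⟩
    exact last3 hn hw hℓ1 hℓ IH h y hij hc (of_b01 a1) ((p5 _).2 (of_b01 a2))
  omega

theorem three_unique {k : ℕ} (hk : 0 < k) (hn : n = 3 * k) (F : ι → VG n) (hw : Wd F k)
    (x y : ι) (s t : ℤ) : (F x).adj s t ↔ (F y).adj s t := by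
  have h1 : ∀ d : ℕ, 0 < d → d < k → Pd F k d := by
    intro d
    induction d using Nat.strong_induction_on with
    | _ d ih =>
      intro hd0 hdk x y i j hij
      have IH : ∀ e : ℕ, 0 < e → e < d → Pd F k e := fun e h1 h2 => ih e h2 h1 (by omega)
      exact ⟨three_step hn hw d hd0 hdk IH x y i j hij,
        three_step hn hw d hd0 hdk IH y x j i hij.symm⟩
  have iffb : ∀ p q : Prop, b01 p = b01 q → (p ↔ q) := by
    intro p q h
    constructor
    · intro hp
      exact of_b01 (h ▸ b01_pos hp)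
    · intro hq
      exact of_b01 (h.symm ▸ b01_pos hq)
  -- chords of length k
  have h2 : Pd F k k := by
    have cc : ∀ (x y : ι) (i j : ℤ), i % (k : ℤ) = j % (k : ℤ) →
        b01 (A (F x) i k) + b01 (A (F x) i (2 * k)) =
          b01 (A (F y) j k) + b01 (A (F y) j (2 * k)) := by
      intro x y i j hij
      have e1 := cnt3' (adj := (F x).adj) (s := i) hk hn
      have e2 := cnt3' (adj := (F y).adj) (s := j) hk hn
      rw [← hij, ← hw x y i j hij, e1] at e2
      have h3 := congrArg List.length e2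
      simpa [X_len] using h3
    have e2 : ∀ (x : ι) (i : ℤ), A (F x) i (2 * k) ↔ A (F x) (i + 2 * k) k := by
      intro x i
      unfold A
      rw [show i + 2 * (k : ℤ) + (k : ℤ) = i + n by subst hn; push_cast; ring, (F x).per',
        adj_comm, show i + ((2 * k : ℕ) : ℤ) = i + 2 * k by push_cast; ring]
    intro x y i j hij
    apply iffb
    have c1 := cc x y i j hij
    have c2 := cc x y i (j + 2 * k) (by rw [Int.add_mul_emod_self_right]; exact hij)
    have c3 := cc x y i (j + k) (by rw [Int.add_emod_right]; exact hij)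
    have d2 := cc x y (i + 2 * k) j (by rw [Int.add_mul_emod_self_right]; exact hij)
    have d3 := cc x y (i + k) j (by rw [Int.add_emod_right]; exact hij)
    have f1 : ∀ (x : ι) (i : ℤ), A (F x) (i + 2 * k + 2 * k) k ↔ A (F x) (i + k) k := by
      intro x i
      rw [show i + 2 * (k : ℤ) + 2 * k = i + k + n by subst hn; push_cast; ring, A_per]
    have f2 : ∀ (x : ι) (i : ℤ), A (F x) (i + k + 2 * k) k ↔ A (F x) i k := by
      intro x i
      rw [show i + (k : ℤ) + 2 * k = i + n by subst hn; push_cast; ring, A_per]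
    rw [b01_congr (e2 x i), b01_congr (e2 y j)] at c1
    rw [b01_congr (e2 x i), b01_congr (e2 y (j + 2 * k)), b01_congr (f1 y j)] at c2
    rw [b01_congr (e2 x i), b01_congr (e2 y (j + k)), b01_congr (f2 y j)] at c3
    rw [b01_congr (e2 x (i + 2 * k)), b01_congr (f1 x i), b01_congr (e2 y j)] at d2
    rw [b01_congr (e2 x (i + k)), b01_congr (f2 x i), b01_congr (e2 y j)] at d3
    change b01 (A (F x) i k) = b01 (A (F y) j k)
    omega
  have h3 : ∀ a : ℕ, 0 < a → a < k → Pd F k (a + k) := by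
    intro a ha hak x y i j hij
    apply iffb
    have c := cnt3_len hw ha hak hn x y hij
    have c1 : b01 (A (F x) i a) = b01 (A (F y) j a) := b01_congr (h1 a ha hak x y i j hij)
    have c2 : b01 (A (F x) i (a + 2 * k)) = b01 (A (F y) j (a + 2 * k)) :=
      b01_congr (Pd_compl (by omega) (h1 (n - (a + 2 * k)) (by omega) (by omega)) x y i j hij)
    change b01 (A (F x) i (a + k)) = b01 (A (F y) j (a + k))
    omega
  refine all_of_Pd (k := k) (by omega) (fun d hd0 hdn => ?_) x y s t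
  rcases lt_trichotomy d k with h | h | h
  · exact h1 d hd0 h
  · subst h; exact h2
  rcases lt_trichotomy d (2 * k) with h' | h' | h'
  · have := h3 (d - k) (by omega) (by omega)
    rwa [show d - k + k = d by omega] at this
  · refine Pd_compl hdn.le ?_
    rw [show n - d = k by omega]
    exact h2
  · exact Pd_compl hdn.le (h1 (n - d) (by omega) (by omega))

end H539
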