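import Pool.Agent.H539.VG.Fam

/-!
Uniqueness for classes of two vertices.
-/

set_option autoImplicit false

namespace H539

open Classical

variable {n : ℕ} {ι : Type}

noncomputable def b01 (p : Prop) : ℕ := if p then 1 else 0

lemma b01_congr {p q : Prop} (h : p ↔ q) : b01 p = b01 q := by unfold b01; simp only [h]
lemma b01_le (p : Prop) : b01 p ≤ 1 := by unfold b01; split_ifs <;> omega
lemma b01_pos {p : Prop} (h : p) : b01 p = 1 := by unfold b01; rw [if_pos h]
lemma b01_neg {p : Prop} (h : ¬ p) : b01 p = 0 := by unfold b01; rw [if_neg h]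
lemma of_b01 {p : Prop} (h : b01 p = 1) : p := by
  by_contra hc
  rw [b01_neg hc] at h
  omega
lemma not_of_b01 {p : Prop} (h : b01 p = 0) : ¬ p := by
  intro hc
  rw [b01_pos hc] at h
  omega

/-- chord of offset `e` at `s` -/
def A (G : VG n) (s : ℤ) (e : ℕ) : Prop := G.adj s (s + (e : ℤ))

lemma X_len (G : VG n) (k : ℕ) (s : ℤ) (e : ℕ) : (X G.adj k s e).length = b01 (A G s e) := by
  unfold X b01 A
  split_ifs <;> rfl

lemma q_bounds {k m d ℓ : ℕ} {q : ℤ} (h : (d : ℤ) = ℓ + q * k) (h1 : ℓ ≤ d)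
    (h2 : d < ℓ + m * k) : 0 ≤ q ∧ q < m := by
  have hk : 0 < k := by
    rcases Nat.eq_zero_or_pos k with hk | hk
    · subst hk; omega
    · exact hk
  have hk' : (0 : ℤ) < k := by exact_mod_cast hk
  have h3 : 0 ≤ q * k := by omega
  have h4 : q * k < m * k := by
    have : (d : ℤ) < ℓ + m * k := by exact_mod_cast h2
    omega
  exact ⟨nonneg_of_mul_nonneg_left h3 hk', lt_of_mul_lt_mul_right h4 hk'.le⟩

lemma cnt2_len {F : ι → VG n} {k r : ℕ} (hw : Wd F k) (hr : 0 < r) (hrk : r < k)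
    (hn : n = 2 * k) (x y : ι) {i j : ℤ} (hij : i % (k : ℤ) = j % (k : ℤ)) :
    b01 (A (F x) i r) + b01 (A (F x) i (r + k)) = b01 (A (F y) j r) + b01 (A (F y) j (r + k)) := by
  have h1 := cnt2 (adj := (F x).adj) (s := i) hr hrk hn
  have h2 := cnt2 (adj := (F y).adj) (s := j) hr hrk hn
  rw [← mod_add hij, ← hw x y i j hij, h1] at h2
  have h3 := congrArg List.length h2
  simpa [X_len] using h3

lemma cnt3_len {F : ι → VG n} {k r : ℕ} (hw : Wd F k) (hr : 0 < r) (hrk : r < k)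
    (hn : n = 3 * k) (x y : ι) {i j : ℤ} (hij : i % (k : ℤ) = j % (k : ℤ)) :
    b01 (A (F x) i r) + (b01 (A (F x) i (r + k)) + b01 (A (F x) i (r + 2 * k))) =
      b01 (A (F y) j r) + (b01 (A (F y) j (r + k)) + b01 (A (F y) j (r + 2 * k))) := by
  have h1 := cnt3 (adj := (F x).adj) (s := i) hr hrk hn
  have h2 := cnt3 (adj := (F y).adj) (s := j) hr hrk hn
  rw [← mod_add hij, ← hw x y i j hij, h1] at h2
  have h3 := congrArg List.length h2
  simpa [X_len] using h3

lemma A_per (G : VG n) (s : ℤ) (e : ℕ) : A G (s + n) e ↔ A G s e := by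
  unfold A
  rw [show s + (n : ℤ) + (e : ℤ) = s + (e : ℤ) + n by ring, G.per', G.per]

lemma two_step {F : ι → VG n} {k : ℕ} (hn : n = 2 * k) (hw : Wd F k) (ℓ : ℕ) (h0 : 0 < ℓ)
    (hℓ : ℓ < k) (IH : ∀ e : ℕ, 0 < e → e < ℓ → Pd F k e) (x y : ι) (i j : ℤ)
    (hij : i % (k : ℤ) = j % (k : ℤ)) (h : (F x).adj i (i + (ℓ : ℤ))) :
    (F y).adj j (j + (ℓ : ℤ)) := by
  by_cases h1 : ℓ = 1
  · subst h1
    have := (F y).succ j
    exact_mod_cast this
  by_contra hc
  have hjk : i % (k : ℤ) = (j + k) % (k : ℤ) := by rw [Int.add_emod_right]; exact hij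
  have hjj : j % (k : ℤ) = (j + k) % (k : ℤ) := by rw [Int.add_emod_right]
  have x0 : b01 (A (F y) j ℓ) = 0 := b01_neg hc
  obtain ⟨d, d1, d2, d3, ⟨q, hq⟩, d5⟩ := fw hw h0 (by omega) IH (y := y) hij h
  obtain ⟨q1, q2⟩ := q_bounds (m := 2) hq d1 (by omega)
  have hq0 : q ≠ 0 := by
    rintro rfl
    have : d = ℓ := by
      have : (d : ℤ) = ℓ := by rw [hq]; ring
      exact_mod_cast this
    subst this
    exact hc d3
  have hq1 : q = 1 := by
    have : q < 2 := by exact_mod_cast q2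
    omega
  subst hq1
  have hd : d = ℓ + k := by
    have : (d : ℤ) = ℓ + k := by rw [hq]; ring
    exact_mod_cast this
  subst hd
  have y0 : b01 (A (F y) j (ℓ + k)) = 1 := b01_pos d3
  have cS := cnt2_len hw h0 hℓ hn y y hjj
  have cT := cnt2_len (r := k - ℓ) hw (by omega) (by omega) hn y y (mod_add hjj (ℓ : ℤ))
  have e1 : A (F y) (j + ℓ) (k - ℓ) ↔ A (F y) (j + k) (ℓ + k) := by
    unfold A
    rw [show j + (ℓ : ℤ) + ((k - ℓ : ℕ) : ℤ) = j + k by push_cast [Nat.cast_sub hℓ.le]; ring,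
      show j + (k : ℤ) + ((ℓ + k : ℕ) : ℤ) = j + ℓ + n by subst hn; push_cast; ring, (F y).per',
      adj_comm]
  have e2 : A (F y) (j + ℓ) (k - ℓ + k) ↔ A (F y) j ℓ := by
    unfold A
    rw [show j + (ℓ : ℤ) + ((k - ℓ + k : ℕ) : ℤ) = j + n by
      subst hn; push_cast [Nat.cast_sub hℓ.le]; ring, (F y).per', adj_comm]
  have e3 : A (F y) (j + k + ℓ) (k - ℓ) ↔ A (F y) j (ℓ + k) := by
    unfold A
    rw [show j + (k : ℤ) + (ℓ : ℤ) + ((k - ℓ : ℕ) : ℤ) = j + n by
      subst hn; push_cast [Nat.cast_sub hℓ.le]; ring, (F y).per', adj_comm,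
      show j + ((ℓ + k : ℕ) : ℤ) = j + k + ℓ by push_cast; ring]
  have e4 : A (F y) (j + k + ℓ) (k - ℓ + k) ↔ A (F y) (j + k) ℓ := by
    unfold A
    rw [show j + (k : ℤ) + (ℓ : ℤ) + ((k - ℓ + k : ℕ) : ℤ) = j + k + n by
      subst hn; push_cast [Nat.cast_sub hℓ.le]; ring, (F y).per', adj_comm]
  rw [b01_congr e1, b01_congr e2, b01_congr e3, b01_congr e4] at cT
  have l1 := b01_le (A (F y) (j + k) ℓ)
  have l2 := b01_le (A (F y) (j + k) (ℓ + k))
  have x1 : b01 (A (F y) (j + k) ℓ) = 0 := by omega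
  have nx1 := not_of_b01 x1
  obtain ⟨d', f1, f2, f3, ⟨q', hq'⟩, f5⟩ := bw (Dvd.intro_left 2 (by subst hn; push_cast; ring))
    hw h0 (by omega) IH (y := y) hjk h
  obtain ⟨q1', q2'⟩ := q_bounds (m := 2) hq' f1 (by omega)
  have hq0' : q' ≠ 0 := by
    rintro rfl
    have : d' = ℓ := by
      have : (d' : ℤ) = ℓ := by rw [hq']; ring
      exact_mod_cast this
    subst this
    apply nx1
    unfold A
    rw [show j + (k : ℤ) + d' - d' = j + k by ring] at f3
    exact f3
  have hq1' : q' = 1 := by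
    have : q' < 2 := by exact_mod_cast q2'
    omega
  subst hq1'
  have hd' : d' = ℓ + k := by
    have : (d' : ℤ) = ℓ + k := by rw [hq']; ring
    exact_mod_cast this
  subst hd'
  refine mutl (G := F y) (s := j) (ℓ := ℓ) (D := ℓ + k) (by omega) (by omega) (by omega) d3 d5 ?_
  intro e he1 he2 hcon
  apply f5 e he1 he2
  rw [show j + (k : ℤ) + (ℓ : ℤ) = j + ((ℓ + k : ℕ) : ℤ) by push_cast; ring]
  exact hcon

theorem two_unique {k : ℕ} (hk : 0 < k) (hn : n = 2 * k) (F : ι → VG n) (hw : Wd F k)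
    (x y : ι) (s t : ℤ) : (F x).adj s t ↔ (F y).adj s t := by
  have h1 : ∀ d : ℕ, 0 < d → d < k → Pd F k d := by
    intro d
    induction d using Nat.strong_induction_on with
    | _ d ih =>
      intro hd0 hdk x y i j hij
      have IH : ∀ e : ℕ, 0 < e → e < d → Pd F k e := fun e h1 h2 => ih e h2 h1 (by omega)
      exact ⟨two_step hn hw d hd0 hdk IH x y i j hij, two_step hn hw d hd0 hdk IH y x j i hij.symm⟩
  have h2 : Pd F k k := by
    intro x y i j hij
    have e1 := cnt2' (adj := (F x).adj) (s := i) hk hn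
    have e2 := cnt2' (adj := (F y).adj) (s := j) hk hn
    rw [← hij, ← hw x y i j hij, e1] at e2
    have h3 := congrArg List.length e2
    rw [X_len, X_len] at h3
    constructor
    · intro h
      have : b01 (A (F x) i k) = 1 := b01_pos h
      exact of_b01 (h3 ▸ this)
    · intro h
      have : b01 (A (F y) j k) = 1 := b01_pos h
      exact of_b01 (h3 ▸ this)
  refine all_of_Pd (k := k) (by omega) (fun d hd0 hdn => ?_) x y s t
  rcases lt_trichotomy d k with h | h | h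
  · exact h1 d hd0 h
  · subst h; exact h2
  · exact Pd_compl hdn.le (h1 (n - d) (by omega) (by omega))

end H539
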