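import Pool.Agent.H539.VG.Zv

/-!
Words of the vertices seen in an interval of offsets.
-/

set_option autoImplicit false

namespace H539

open Classical

variable {n : ℕ}

/-- classes modulo `k` of the vertices `s + e`, `a ≤ e < b`, seen from `s` -/
noncomputable def W (adj : ℤ → ℤ → Prop) (k : ℕ) (s : ℤ) (a b : ℕ) : List ℤ :=
  ((List.range' a (b - a)).filter (fun e : ℕ => decide (adj s (s + (e : ℤ))))).map
    (fun e : ℕ => (s + (e : ℤ)) % (k : ℤ))

lemma wd_eq_W (adj : ℤ → ℤ → Prop) (n k : ℕ) (s : ℤ) : wd adj n k s = W adj k s 1 n := by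
  unfold wd nbrs W
  rw [List.range'_eq_map_range, List.filter_map, List.filter_map, List.map_map, List.map_map]
  have h : ∀ x : ℕ, s + 1 + (x : ℤ) = s + ((1 + x : ℕ) : ℤ) := by
    intro x; push_cast; ring
  have e1 : ((fun t : ℤ => t % (k : ℤ)) ∘ fun i : ℕ => s + 1 + (i : ℤ)) =
      ((fun e : ℕ => (s + (e : ℤ)) % (k : ℤ)) ∘ fun x => 1 + x) := by
    funext x
    simp only [Function.comp]
    rw [h]
  have e2 : ((fun t : ℤ => decide (adj s t)) ∘ fun i : ℕ => s + 1 + (i : ℤ)) =
      ((fun e : ℕ => decide (adj s (s + (e : ℤ)))) ∘ fun x => 1 + x) := by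
    funext x
    simp only [Function.comp, h]
  rw [e1, e2]

lemma W_split (adj : ℤ → ℤ → Prop) (k : ℕ) (s : ℤ) {a b c : ℕ} (h1 : a ≤ b) (h2 : b ≤ c) :
    W adj k s a c = W adj k s a b ++ W adj k s b c := by
  unfold W
  have h : List.range' a (c - a) = List.range' a (b - a) ++ List.range' b (c - b) := by
    have := List.range'_append_1 (s := a) (m := b - a) (n := c - b)
    rw [show a + (b - a) = b by omega, show b - a + (c - b) = c - a by omega] at this
    exact this.symm
  rw [h, List.filter_append, List.map_append]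

lemma W_one (adj : ℤ → ℤ → Prop) (k : ℕ) (s : ℤ) (a : ℕ) :
    W adj k s a (a + 1) = if adj s (s + (a : ℤ)) then [(s + (a : ℤ)) % (k : ℤ)] else [] := by
  unfold W
  rw [show a + 1 - a = 1 by omega]
  by_cases h : adj s (s + (a : ℤ)) <;> simp [h]

lemma W_self (adj : ℤ → ℤ → Prop) (k : ℕ) (s : ℤ) (a : ℕ) : W adj k s a a = [] := by
  unfold W
  simp

lemma W_congr {adj adj' : ℤ → ℤ → Prop} {k : ℕ} {s s' : ℤ} {a b : ℕ}
    (hs : s % (k : ℤ) = s' % (k : ℤ))
    (h : ∀ e : ℕ, a ≤ e → e < b → (adj s (s + (e : ℤ)) ↔ adj' s' (s' + (e : ℤ)))) :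
    W adj k s a b = W adj' k s' a b := by
  unfold W
  have h1 : (List.range' a (b - a)).filter (fun e : ℕ => decide (adj s (s + (e : ℤ)))) =
      (List.range' a (b - a)).filter (fun e : ℕ => decide (adj' s' (s' + (e : ℤ)))) := by
    apply List.filter_congr
    intro e he
    rw [List.mem_range'_1] at he
    have := h e (by omega) (by omega)
    simp only [this]
  rw [h1]
  apply List.map_congr_left
  intro e _
  rw [Int.add_emod, hs, ← Int.add_emod]

lemma W_head {adj : ℤ → ℤ → Prop} {k : ℕ} {s : ℤ} {c : ℤ} {l : List ℤ} :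
    ∀ (m a b : ℕ), b - a ≤ m → W adj k s a b = c :: l →
    ∃ d : ℕ, a ≤ d ∧ d < b ∧ adj s (s + (d : ℤ)) ∧ (s + (d : ℤ)) % (k : ℤ) = c ∧
      ∀ e : ℕ, a ≤ e → e < d → ¬ adj s (s + (e : ℤ)) := by
  intro m
  induction m with
  | zero =>
    intro a b hm h
    have : W adj k s a b = [] := by
      unfold W
      rw [show b - a = 0 by omega]
      simp
    rw [this] at h
    exact absurd h (by simp)
  | succ m ih =>
    intro a b hm h
    by_cases hab : a < b
    · rw [W_split adj k s (show a ≤ a + 1 by omega) (show a + 1 ≤ b by omega), W_one] at h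
      by_cases ha : adj s (s + (a : ℤ))
      · rw [if_pos ha] at h
        simp only [List.cons_append, List.nil_append, List.cons.injEq] at h
        exact ⟨a, le_refl _, hab, ha, h.1, fun e h1 h2 => by omega⟩
      · rw [if_neg ha, List.nil_append] at h
        obtain ⟨d, h1, h2, h3, h4, h5⟩ := ih (a + 1) b (by omega) h
        refine ⟨d, by omega, h2, h3, h4, fun e h6 h7 => ?_⟩
        by_cases he : e = a
        · subst he; exact ha
        · exact h5 e (by omega) h7
    · have : W adj k s a b = [] := by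
        unfold W
        rw [show b - a = 0 by omega]
        simp
      rw [this] at h
      exact absurd h (by simp)

lemma W_last {adj : ℤ → ℤ → Prop} {k : ℕ} {s : ℤ} {c : ℤ} {l : List ℤ} :
    ∀ (m a b : ℕ), b - a ≤ m → W adj k s a b = l ++ [c] →
    ∃ d : ℕ, a ≤ d ∧ d < b ∧ adj s (s + (d : ℤ)) ∧ (s + (d : ℤ)) % (k : ℤ) = c ∧
      ∀ e : ℕ, d < e → e < b → ¬ adj s (s + (e : ℤ)) := by
  intro m
  induction m with
  | zero =>
    intro a b hm h
    have : W adj k s a b = [] := by
      unfold W
      rw [show b - a = 0 by omega]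
      simp
    rw [this] at h
    exact absurd h (by simp)
  | succ m ih =>
    intro a b hm h
    by_cases hab : a < b
    · obtain ⟨b', rfl⟩ : ∃ b', b = b' + 1 := ⟨b - 1, by omega⟩
      rw [W_split adj k s (show a ≤ b' by omega) (show b' ≤ b' + 1 by omega), W_one] at h
      by_cases ha : adj s (s + (b' : ℤ))
      · rw [if_pos ha] at h
        have h1 := List.append_inj_right' h (by simp)
        simp only [List.cons.injEq, and_true] at h1
        exact ⟨b', by omega, by omega, ha, h1, fun e h1 h2 => by omega⟩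
      · rw [if_neg ha, List.append_nil] at h
        obtain ⟨d, h1, h2, h3, h4, h5⟩ := ih a b' (by omega) h
        refine ⟨d, h1, by omega, h3, h4, fun e h6 h7 => ?_⟩
        by_cases he : e = b'
        · subst he; exact ha
        · exact h5 e h6 (by omega)
    · have : W adj k s a b = [] := by
        unfold W
        rw [show b - a = 0 by omega]
        simp
      rw [this] at h
      exact absurd h (by simp)

lemma W_filter_none {adj : ℤ → ℤ → Prop} {k : ℕ} {s : ℤ} {a b : ℕ} (p : ℤ → Bool)
    (h : ∀ e : ℕ, a ≤ e → e < b → p ((s + (e : ℤ)) % (k : ℤ)) = false) :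
    (W adj k s a b).filter p = [] := by
  unfold W
  rw [List.filter_eq_nil_iff]
  intro x hx
  rw [List.mem_map] at hx
  obtain ⟨e, he, rfl⟩ := hx
  rw [List.mem_filter, List.mem_range'_1] at he
  rw [h e (by omega) (by omega)]
  simp

/-- next vertex seen, forward -/
lemma next_fwd {adj adj' : ℤ → ℤ → Prop} {k ℓ : ℕ} {s s' : ℤ}
    (hs : s % (k : ℤ) = s' % (k : ℤ)) (hw : wd adj n k s = wd adj' n k s')
    (h0 : 0 < ℓ) (hn : ℓ < n)
    (hag : ∀ e : ℕ, 0 < e → e < ℓ → (adj s (s + (e : ℤ)) ↔ adj' s' (s' + (e : ℤ))))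
    (h : adj s (s + (ℓ : ℤ))) :
    ∃ d : ℕ, ℓ ≤ d ∧ d < n ∧ adj' s' (s' + (d : ℤ)) ∧
      (s' + (d : ℤ)) % (k : ℤ) = (s + (ℓ : ℤ)) % (k : ℤ) ∧
      ∀ e : ℕ, ℓ ≤ e → e < d → ¬ adj' s' (s' + (e : ℤ)) := by
  rw [wd_eq_W, wd_eq_W, W_split adj k s (show 1 ≤ ℓ by omega) (show ℓ ≤ n by omega),
    W_split adj' k s' (show 1 ≤ ℓ by omega) (show ℓ ≤ n by omega),
    W_congr hs (fun e h1 h2 => hag e (by omega) h2), List.append_cancel_left_eq,
    W_split adj k s (show ℓ ≤ ℓ + 1 by omega) (show ℓ + 1 ≤ n by omega), W_one, if_pos h] at hw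
  simp only [List.cons_append, List.nil_append] at hw
  obtain ⟨d, h1, h2, h3, h4, h5⟩ := W_head (n - ℓ) ℓ n (le_refl _) hw.symm
  exact ⟨d, h1, h2, h3, h4, h5⟩

/-- next vertex seen, backward -/
lemma next_bwd {adj adj' : ℤ → ℤ → Prop} {k ℓ : ℕ} {s s' : ℤ}
    (hs : s % (k : ℤ) = s' % (k : ℤ)) (hw : wd adj n k s = wd adj' n k s')
    (h0 : 0 < ℓ) (hn : ℓ < n)
    (hag : ∀ e : ℕ, n - ℓ < e → e < n → (adj s (s + (e : ℤ)) ↔ adj' s' (s' + (e : ℤ))))
    (h : adj s (s + ((n - ℓ : ℕ) : ℤ))) :
    ∃ d : ℕ, 1 ≤ d ∧ d ≤ n - ℓ ∧ adj' s' (s' + (d : ℤ)) ∧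
      (s' + (d : ℤ)) % (k : ℤ) = (s + ((n - ℓ : ℕ) : ℤ)) % (k : ℤ) ∧
      ∀ e : ℕ, d < e → e ≤ n - ℓ → ¬ adj' s' (s' + (e : ℤ)) := by
  rw [wd_eq_W, wd_eq_W, W_split adj k s (show 1 ≤ n - ℓ + 1 by omega) (show n - ℓ + 1 ≤ n by omega),
    W_split adj' k s' (show 1 ≤ n - ℓ + 1 by omega) (show n - ℓ + 1 ≤ n by omega),
    W_congr hs (fun e h1 h2 => hag e (by omega) h2), List.append_cancel_right_eq,
    W_split adj k s (show 1 ≤ n - ℓ by omega) (show n - ℓ ≤ n - ℓ + 1 by omega), W_one,
    if_pos h] at hw
  obtain ⟨d, h1, h2, h3, h4, h5⟩ := W_last (n - ℓ) 1 (n - ℓ + 1) (by omega) hw.symm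
  exact ⟨d, h1, by omega, h3, h4, fun e h6 h7 => h5 e h6 (by omega)⟩

/-- contribution of one offset -/
noncomputable def X (adj : ℤ → ℤ → Prop) (k : ℕ) (s : ℤ) (a : ℕ) : List ℤ :=
  if adj s (s + (a : ℤ)) then [(s + (a : ℤ)) % (k : ℤ)] else []

lemma W_one_filter {adj : ℤ → ℤ → Prop} {k : ℕ} {s : ℤ} {a : ℕ} (p : ℤ → Bool)
    (h : p ((s + (a : ℤ)) % (k : ℤ)) = true) :
    (W adj k s a (a + 1)).filter p = X adj k s a := by
  rw [W_one]
  unfold X
  by_cases ha : adj s (s + (a : ℤ))
  · rw [if_pos ha, List.filter_cons_of_pos h]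
    simp
  · rw [if_neg ha]
    simp

lemma ne_class {k : ℕ} {s r e : ℤ} (j : ℤ) (h1 : r + j * k < e) (h2 : e < r + (j + 1) * k) :
    (s + e) % (k : ℤ) ≠ (s + r) % (k : ℤ) := by
  intro h
  have h3 : (k : ℤ) ∣ (s + e) - (s + r) :=
    Int.ModEq.dvd (show (s + r) ≡ (s + e) [ZMOD k] from h.symm)
  obtain ⟨q, hq⟩ := h3
  have h4 : j * k < q * k := by nlinarith
  have h5 : q * k < (j + 1) * k := by nlinarith
  have hk : (0 : ℤ) ≤ k := by positivity
  have h6 : j < q := lt_of_mul_lt_mul_right h4 hk
  have h7 : q < j + 1 := lt_of_mul_lt_mul_right h5 hk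
  omega

lemma eq_class {k : ℕ} {s r : ℤ} (j : ℤ) :
    (s + (r + j * k)) % (k : ℤ) = (s + r) % (k : ℤ) := by
  rw [← add_assoc, Int.add_mul_emod_self_right]

/-- number of visible vertices of a class, two classes of offsets -/
lemma cnt2 {adj : ℤ → ℤ → Prop} {k r : ℕ} {s : ℤ} (hr : 0 < r) (hrk : r < k) (hn : n = 2 * k) :
    (wd adj n k s).filter (fun c => decide (c = (s + (r : ℤ)) % (k : ℤ))) =
      X adj k s r ++ X adj k s (r + k) := by
  rw [wd_eq_W, W_split adj k s (show 1 ≤ r by omega) (show r ≤ n by omega),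
    W_split adj k s (show r ≤ r + 1 by omega) (show r + 1 ≤ n by omega),
    W_split adj k s (show r + 1 ≤ r + k by omega) (show r + k ≤ n by omega),
    W_split adj k s (show r + k ≤ r + k + 1 by omega) (show r + k + 1 ≤ n by omega)]
  simp only [List.filter_append]
  rw [W_filter_none (a := 1) (b := r), W_one_filter (a := r), W_filter_none (a := r + 1),
    W_one_filter (a := r + k), W_filter_none (a := r + k + 1)]
  · simp
  · intro e h1 h2
    exact decide_eq_false (ne_class 1 (by push_cast; omega) (by push_cast; omega))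
  · have := eq_class (k := k) (s := s) (r := r) 1
    rw [one_mul] at this
    push_cast
    exact decide_eq_true this
  · intro e h1 h2
    exact decide_eq_false (ne_class 0 (by push_cast; omega) (by push_cast; omega))
  · exact decide_eq_true rfl
  · intro e h1 h2
    exact decide_eq_false (ne_class (-1) (by push_cast; omega) (by push_cast; omega))

lemma cnt2' {adj : ℤ → ℤ → Prop} {k : ℕ} {s : ℤ} (hk : 0 < k) (hn : n = 2 * k) :
    (wd adj n k s).filter (fun c => decide (c = s % (k : ℤ))) = X adj k s k := by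
  have h00 : s % (k : ℤ) = (s + 0) % (k : ℤ) := by rw [add_zero]
  rw [h00, wd_eq_W, W_split adj k s (show 1 ≤ k by omega) (show k ≤ n by omega),
    W_split adj k s (show k ≤ k + 1 by omega) (show k + 1 ≤ n by omega)]
  simp only [List.filter_append]
  rw [W_filter_none (a := 1) (b := k), W_one_filter (a := k), W_filter_none (a := k + 1)]
  · simp
  · intro e h1 h2
    exact decide_eq_false (ne_class 1 (by push_cast; omega) (by push_cast; omega))
  · have := eq_class (k := k) (s := s) (r := 0) 1
    rw [one_mul, zero_add] at this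
    exact decide_eq_true this
  · intro e h1 h2
    exact decide_eq_false (ne_class 0 (by push_cast; omega) (by push_cast; omega))

lemma cnt3 {adj : ℤ → ℤ → Prop} {k r : ℕ} {s : ℤ} (hr : 0 < r) (hrk : r < k) (hn : n = 3 * k) :
    (wd adj n k s).filter (fun c => decide (c = (s + (r : ℤ)) % (k : ℤ))) =
      X adj k s r ++ (X adj k s (r + k) ++ X adj k s (r + 2 * k)) := by
  rw [wd_eq_W, W_split adj k s (show 1 ≤ r by omega) (show r ≤ n by omega),
    W_split adj k s (show r ≤ r + 1 by omega) (show r + 1 ≤ n by omega),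
    W_split adj k s (show r + 1 ≤ r + k by omega) (show r + k ≤ n by omega),
    W_split adj k s (show r + k ≤ r + k + 1 by omega) (show r + k + 1 ≤ n by omega),
    W_split adj k s (show r + k + 1 ≤ r + 2 * k by omega) (show r + 2 * k ≤ n by omega),
    W_split adj k s (show r + 2 * k ≤ r + 2 * k + 1 by omega) (show r + 2 * k + 1 ≤ n by omega)]
  simp only [List.filter_append]
  rw [W_filter_none (a := 1) (b := r), W_one_filter (a := r), W_filter_none (a := r + 1),
    W_one_filter (a := r + k), W_filter_none (a := r + k + 1),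
    W_one_filter (a := r + 2 * k), W_filter_none (a := r + 2 * k + 1)]
  · simp
  · intro e h1 h2
    exact decide_eq_false (ne_class 2 (by push_cast; omega) (by push_cast; omega))
  · have := eq_class (k := k) (s := s) (r := r) 2
    push_cast
    exact decide_eq_true this
  · intro e h1 h2
    exact decide_eq_false (ne_class 1 (by push_cast; omega) (by push_cast; omega))
  · have := eq_class (k := k) (s := s) (r := r) 1
    rw [one_mul] at this
    push_cast
    exact decide_eq_true this
  · intro e h1 h2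
    exact decide_eq_false (ne_class 0 (by push_cast; omega) (by push_cast; omega))
  · exact decide_eq_true rfl
  · intro e h1 h2
    exact decide_eq_false (ne_class (-1) (by push_cast; omega) (by push_cast; omega))

lemma cnt3' {adj : ℤ → ℤ → Prop} {k : ℕ} {s : ℤ} (hk : 0 < k) (hn : n = 3 * k) :
    (wd adj n k s).filter (fun c => decide (c = s % (k : ℤ))) =
      X adj k s k ++ X adj k s (2 * k) := by
  have h00 : s % (k : ℤ) = (s + 0) % (k : ℤ) := by rw [add_zero]
  rw [h00, wd_eq_W, W_split adj k s (show 1 ≤ k by omega) (show k ≤ n by omega),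
    W_split adj k s (show k ≤ k + 1 by omega) (show k + 1 ≤ n by omega),
    W_split adj k s (show k + 1 ≤ 2 * k by omega) (show 2 * k ≤ n by omega),
    W_split adj k s (show 2 * k ≤ 2 * k + 1 by omega) (show 2 * k + 1 ≤ n by omega)]
  simp only [List.filter_append]
  rw [W_filter_none (a := 1) (b := k), W_one_filter (a := k), W_filter_none (a := k + 1),
    W_one_filter (a := 2 * k), W_filter_none (a := 2 * k + 1)]
  · simp
  · intro e h1 h2
    exact decide_eq_false (ne_class 2 (by push_cast; omega) (by push_cast; omega))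
  · have := eq_class (k := k) (s := s) (r := 0) 2
    rw [zero_add] at this
    push_cast
    exact decide_eq_true this
  · intro e h1 h2
    exact decide_eq_false (ne_class 1 (by push_cast; omega) (by push_cast; omega))
  · have := eq_class (k := k) (s := s) (r := 0) 1
    rw [one_mul, zero_add] at this
    exact decide_eq_true this
  · intro e h1 h2
    exact decide_eq_false (ne_class 0 (by push_cast; omega) (by push_cast; omega))

/-- the visible vertices of two classes, three periods -/
lemma cnt6 {adj : ℤ → ℤ → Prop} {k b c : ℕ} {s : ℤ} (hb : 0 < b) (hbc : b < c) (hck : c < k)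
    (hn : n = 3 * k) :
    (wd adj n k s).filter
      (fun x => decide (x = (s + (b : ℤ)) % (k : ℤ) ∨ x = (s + (c : ℤ)) % (k : ℤ))) =
      X adj k s b ++ (X adj k s c ++ (X adj k s (b + k) ++ (X adj k s (c + k) ++
        (X adj k s (b + 2 * k) ++ X adj k s (c + 2 * k))))) := by
  rw [wd_eq_W, W_split adj k s (show 1 ≤ b by omega) (show b ≤ n by omega),
    W_split adj k s (show b ≤ b + 1 by omega) (show b + 1 ≤ n by omega),
    W_split adj k s (show b + 1 ≤ c by omega) (show c ≤ n by omega),
    W_split adj k s (show c ≤ c + 1 by omega) (show c + 1 ≤ n by omega),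
    W_split adj k s (show c + 1 ≤ b + k by omega) (show b + k ≤ n by omega),
    W_split adj k s (show b + k ≤ b + k + 1 by omega) (show b + k + 1 ≤ n by omega),
    W_split adj k s (show b + k + 1 ≤ c + k by omega) (show c + k ≤ n by omega),
    W_split adj k s (show c + k ≤ c + k + 1 by omega) (show c + k + 1 ≤ n by omega),
    W_split adj k s (show c + k + 1 ≤ b + 2 * k by omega) (show b + 2 * k ≤ n by omega),
    W_split adj k s (show b + 2 * k ≤ b + 2 * k + 1 by omega) (show b + 2 * k + 1 ≤ n by omega),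
    W_split adj k s (show b + 2 * k + 1 ≤ c + 2 * k by omega) (show c + 2 * k ≤ n by omega),
    W_split adj k s (show c + 2 * k ≤ c + 2 * k + 1 by omega) (show c + 2 * k + 1 ≤ n by omega)]
  simp only [List.filter_append]
  rw [W_filter_none (a := 1) (b := b), W_one_filter (a := b), W_filter_none (a := b + 1),
    W_one_filter (a := c), W_filter_none (a := c + 1),
    W_one_filter (a := b + k), W_filter_none (a := b + k + 1),
    W_one_filter (a := c + k), W_filter_none (a := c + k + 1),
    W_one_filter (a := b + 2 * k), W_filter_none (a := b + 2 * k + 1),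
    W_one_filter (a := c + 2 * k), W_filter_none (a := c + 2 * k + 1)]
  · simp
  · intro e h1 h2
    exact decide_eq_false (not_or.2 ⟨ne_class 2 (by push_cast; omega) (by push_cast; omega),
      ne_class 2 (by push_cast; omega) (by push_cast; omega)⟩)
  · have := eq_class (k := k) (s := s) (r := c) 2
    push_cast
    exact decide_eq_true (Or.inr this)
  · intro e h1 h2
    exact decide_eq_false (not_or.2 ⟨ne_class 2 (by push_cast; omega) (by push_cast; omega),
      ne_class 1 (by push_cast; omega) (by push_cast; omega)⟩)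
  · have := eq_class (k := k) (s := s) (r := b) 2
    push_cast
    exact decide_eq_true (Or.inl this)
  · intro e h1 h2
    exact decide_eq_false (not_or.2 ⟨ne_class 1 (by push_cast; omega) (by push_cast; omega),
      ne_class 1 (by push_cast; omega) (by push_cast; omega)⟩)
  · have := eq_class (k := k) (s := s) (r := c) 1
    rw [one_mul] at this
    push_cast
    exact decide_eq_true (Or.inr this)
  · intro e h1 h2
    exact decide_eq_false (not_or.2 ⟨ne_class 1 (by push_cast; omega) (by push_cast; omega),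
      ne_class 0 (by push_cast; omega) (by push_cast; omega)⟩)
  · have := eq_class (k := k) (s := s) (r := b) 1
    rw [one_mul] at this
    push_cast
    exact decide_eq_true (Or.inl this)
  · intro e h1 h2
    exact decide_eq_false (not_or.2 ⟨ne_class 0 (by push_cast; omega) (by push_cast; omega),
      ne_class 0 (by push_cast; omega) (by push_cast; omega)⟩)
  · exact decide_eq_true (Or.inr rfl)
  · intro e h1 h2
    exact decide_eq_false (not_or.2 ⟨ne_class 0 (by push_cast; omega) (by push_cast; omega),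
      ne_class (-1) (by push_cast; omega) (by push_cast; omega)⟩)
  · exact decide_eq_true (Or.inl rfl)
  · intro e h1 h2
    exact decide_eq_false (not_or.2 ⟨ne_class (-1) (by push_cast; omega) (by push_cast; omega),
      ne_class (-1) (by push_cast; omega) (by push_cast; omega)⟩)

end H539
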